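import Pool.Agent.V5helper28.SSK.Defs

/-!
# Final assembly
-/

set_option autoImplicit false

namespace Pool.Agent.V5helper12.SSK

open Pool.Agent.V5helper28.SSK
open MeasureTheory Set
open scoped ENNReal

theorem clump_anti {d : ℕ} {I : Type} (c : I → E d) {r θ θ' : ℝ} (hr : 0 < r) (hr1 : r < 1)
    (h : θ' ≤ θ) {q n : ℕ} (hC : Clump c r θ q n) : Clump c r θ' q n := by
  obtain ⟨W, F, h1, h2⟩ := hC
  refine ⟨W, F, le_trans ?_ h1, h2⟩
  refine Real.rpow_le_rpow_of_exponent_le ?_ ?_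
  · exact (one_le_inv₀ hr).2 hr1.le
  · exact mul_le_mul_of_nonneg_right (by linarith) (Nat.cast_nonneg _)

/-- the heights with clumps -/
def WS {d : ℕ} {I : Type} (v a : I → E d) (r θ : ℝ) : Set ℝ :=
  {t : ℝ | ∀ q : ℕ, ∃ n₁ : ℕ, ∀ n : ℕ, n₁ ≤ n → Clump (ct v a t) r θ q n}

theorem slice_dim (hA : JobA) (hH : JobH) {d m : ℕ} (v a : Fin m → E d) (r s : ℝ) (hm : 0 < m)
    (hr : 0 < r) (hr1 : r < 1) (Γ : Set (E d × E d)) (hne : Γ.Nonempty) (hc : IsCompact Γ)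
    (hinv : ∀ k, ∀ z ∈ Γ, r • z + (v k, a k) ∈ Γ) (hs : s ≤ Real.log m / Real.log r⁻¹) (t : ℝ)
    (ht : ∀ k : ℕ, t ∉ WS v a r (1 / ((k : ℝ) + 1))) :
    ENNReal.ofReal s ≤ dimH ((fun z : E d × E d => z.2 + t • z.1) '' Γ) := by
  haveI : Nonempty (Fin m) := ⟨⟨0, hm⟩⟩
  set π : E d × E d → E d := fun z => z.2 + t • z.1 with hπ
  have hπc : Continuous π := by
    rw [hπ]
    fun_prop
  have hcomp : IsCompact (π '' Γ) := hc.image hπc
  obtain ⟨B, hB⟩ := hcomp.isBounded.exists_norm_le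
  have hB0 : 0 ≤ B := by
    obtain ⟨z, hz⟩ := hne
    exact (norm_nonneg _).trans (hB _ (mem_image_of_mem π hz))
  have h1 : ∀ η : ℝ, 0 < η → ¬ Thin (ct v a t) r (2 * B + 1) η := by
    intro η hη hthin
    have h2 := hA d (Fin m) (ct v a t) r (2 * B + 1) η hr hr1 (by linarith) hη hthin
    obtain ⟨k, hk⟩ := exists_nat_one_div_lt (show 0 < η / 4 by linarith)
    refine ht k fun q => ?_
    obtain ⟨n₁, hn₁⟩ := h2 q
    exact ⟨n₁, fun n hn => clump_anti _ hr hr1 hk.le (hn₁ n hn)⟩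
  have h2 := hH d (Fin m) (ct v a t) r (2 * B + 1) (2 * B) (π '' Γ) hr hr1 (by linarith)
    (hne.image π) hcomp.isClosed ?_ ?_ h1
  · rw [Fintype.card_fin] at h2
    exact (ENNReal.ofReal_le_ofReal hs).trans h2
  · intro x hx y hy
    have := norm_sub_le x y
    have := hB x hx
    have := hB y hy
    linarith
  · rintro k x ⟨z, hz, rfl⟩
    refine ⟨r • z + (v k, a k), hinv k z hz, ?_⟩
    simp only [hπ, ct, Prod.smul_fst, Prod.smul_snd, Prod.fst_add, Prod.snd_add]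
    module

theorem fin1 (hA : JobA) (hW : JobW) (hH : JobH) (hG : JobG)
    (d : ℕ) (I : Type) [Fintype I] (R : I → ℝ) (b : I → E d × E d) (Γ : Set (E d × E d))
    (hR : ∀ i, 0 < R i ∧ R i < 1) (hne : Γ.Nonempty) (hc : IsCompact Γ)
    (hΓ : Γ = ⋃ i, (fun z => R i • z + b i) '' Γ) :
    ∃ Z : Set ℝ, dimH Z = 0 ∧ ∀ t, t ∉ Z →
      dimH (Prod.fst '' Γ) ≤ dimH ((fun z : E d × E d => z.2 + t • z.1) '' Γ) := by
  classical
  haveI : Nonempty I := by
    obtain ⟨z, hz⟩ := hne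
    rw [hΓ, mem_iUnion] at hz
    obtain ⟨i, _⟩ := hz
    exact ⟨i⟩
  have key : ∀ s : ℚ, ∃ Z : Set ℝ, dimH Z = 0 ∧ (0 < s → ENNReal.ofReal s < dimH (Prod.fst '' Γ) →
      ∀ t, t ∉ Z → ENNReal.ofReal s ≤ dimH ((fun z : E d × E d => z.2 + t • z.1) '' Γ)) := by
    intro s
    by_cases hs : 0 < s ∧ ENNReal.ofReal s < dimH (Prod.fst '' Γ)
    · obtain ⟨m, r, κ, v, a, hm, hr, hr1, hκ, hinv, hsep, hsm⟩ := hG d I R b Γ hR hne hc hΓ s
        (by exact_mod_cast hs.1) hs.2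
      refine ⟨⋃ k : ℕ, WS v a r (1 / ((k : ℝ) + 1)), ?_, fun _ _ t ht => ?_⟩
      · haveI : Nonempty (Fin m) := ⟨⟨0, hm⟩⟩
        rw [dimH_iUnion]
        simp only [ENNReal.iSup_eq_zero]
        intro k
        exact hW d (Fin m) v a r κ _ hr hr1 hκ (by positivity) hsep
      · rw [mem_iUnion] at ht
        push Not at ht
        exact slice_dim hA hH v a r s hm hr hr1 Γ hne hc hinv hsm t ht
    · exact ⟨∅, dimH_empty, fun h1 h2 => absurd ⟨h1, h2⟩ hs⟩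
  choose Z hZ0 hZ using key
  refine ⟨⋃ s : ℚ, Z s, ?_, fun t ht => ?_⟩
  · rw [dimH_iUnion]
    simp only [ENNReal.iSup_eq_zero]
    exact hZ0
  · rw [mem_iUnion] at ht
    push Not at ht
    refine le_of_forall_lt fun x hx => ?_
    obtain ⟨q, hq0, hxq, hq⟩ := ENNReal.lt_iff_exists_rat_btwn.1 hx
    have hq' : (0 : ℚ) < q := by
      rcases hq0.lt_or_eq with h | h
      · exact h
      · exfalso
        rw [← h] at hxq
        simp at hxq
    have h1 : ENNReal.ofReal (q : ℝ) < dimH (Prod.fst '' Γ) := hq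
    exact lt_of_lt_of_le hxq (hZ q hq' h1 t (ht q))

theorem fin (hA : JobA) (hW : JobW) (hH : JobH) (hS : JobS) (hG : JobG) (hB : JobB)
    (d : ℕ) (I : Type) [Fintype I] (R : I → ℝ) (b : I → E d × E d) (Γ : Set (E d × E d))
    (hR : ∀ i, 0 < R i ∧ R i < 1) (hne : Γ.Nonempty) (hc : IsCompact Γ)
    (hΓ : Γ = ⋃ i, (fun z => R i • z + b i) '' Γ) :
    (∃ Z : Set ℝ, dimH Z = 0 ∧ ∀ t, t ∉ Z →
      dimH (Prod.fst '' Γ) ≤ dimH ((fun z : E d × E d => z.2 + t • z.1) '' Γ)) ∧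
    ∀ K : Set (E (d + 1)), IsClosed K →
      (∀ z ∈ Γ, ∃ t₁ t₂ : ℝ, t₁ < t₂ ∧ ∀ t ∈ Icc t₁ t₂, pt t (z.2 + t • z.1) ∈ K) →
      dimH (Prod.fst '' Γ) + 1 ≤ dimH K ∧ (dimH (Prod.fst '' Γ) = d → dimH K = d + 1) := by
  have h1 := fin1 hA hW hH hG d I R b Γ hR hne hc hΓ
  refine ⟨h1, fun K hK hseg => ?_⟩
  obtain ⟨Z, hZ0, hZ⟩ := h1
  haveI : Nonempty I := by
    obtain ⟨z, hz⟩ := hne
    rw [hΓ, mem_iUnion] at hz
    obtain ⟨i, _⟩ := hz
    exact ⟨i⟩
  obtain ⟨R', b', t₁, t₂, hR', ht, hKB⟩ := hB d I R b Γ hR hne hc hΓ K hK hseg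
  have hvZ : volume Z = 0 := by
    rw [← hausdorffMeasure_real]
    refine hausdorffMeasure_of_dimH_lt (d := 1) ?_
    rw [hZ0]
    simp
  have hT : 0 < volume (Icc t₁ t₂ \ Z) := by
    rw [measure_diff_null hvZ, Real.volume_Icc]
    simpa using ht
  have h2 : dimH (Prod.fst '' Γ) + 1 ≤ dimH K := by
    refine hS d K _ _ hT fun t htT => ?_
    have hsub : (fun x : E d => R' • x + (b'.2 + t • b'.1)) ''
        ((fun z : E d × E d => z.2 + t • z.1) '' Γ) ⊆ {y : E d | pt t y ∈ K} := by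
      rintro _ ⟨_, ⟨z, hz, rfl⟩, rfl⟩
      have h3 := hKB z hz t htT.1
      have h4 : (R' • z + b').2 + t • (R' • z + b').1 =
          R' • (z.2 + t • z.1) + (b'.2 + t • b'.1) := by
        simp only [Prod.smul_fst, Prod.smul_snd, Prod.fst_add, Prod.snd_add]
        module
      rw [h4] at h3
      exact h3
    constructor
    · exact (((hne.image _).image _).mono hsub)
    · refine (hZ t htT.2).trans (le_trans ?_ (dimH_mono hsub))
      have hanti : AntilipschitzWith (Real.toNNReal R'⁻¹)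
          (fun x : E d => R' • x + (b'.2 + t • b'.1)) := by
        refine AntilipschitzWith.of_le_mul_dist fun x y => ?_
        rw [dist_add_right, dist_smul₀, Real.norm_eq_abs, abs_of_pos hR',
          Real.coe_toNNReal _ (by positivity)]
        field_simp
        exact le_rfl
      exact hanti.le_dimH_image _
  refine ⟨h2, fun hd => le_antisymm ?_ (by rw [hd] at h2; exact h2)⟩
  calc dimH K ≤ dimH (univ : Set (E (d + 1))) := dimH_mono (subset_univ _)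
    _ = d + 1 := by
      rw [Real.dimH_univ_eq_finrank]
      simp

end Pool.Agent.V5helper12.SSK
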