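import Pool.Agent.V5helper28.SSK.Defs

/-!
# JOB W, part 1: linear algebra
-/

set_option autoImplicit false

namespace Pool.Agent.V5helper12.SSK

open Pool.Agent.V5helper28.SSK
open Module
open scoped InnerProductSpace

/-! ### counting points near a subspace -/

theorem norm_le_sum {n : ℕ} {F : Type*} [NormedAddCommGroup F] [InnerProductSpace ℝ F]
    (b : OrthonormalBasis (Fin n) ℝ F) (x : F) (h : ℝ) (hx : ∀ i, |⟪b i, x⟫_ℝ| ≤ h) :
    ‖x‖ ≤ n * h := by
  have h1 : x = ∑ i, ⟪b i, x⟫_ℝ • b i := (b.sum_repr' x).symm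
  calc ‖x‖ = ‖∑ i, ⟪b i, x⟫_ℝ • b i‖ := by rw [← h1]
    _ ≤ ∑ i, ‖⟪b i, x⟫_ℝ • b i‖ := norm_sum_le _ _
    _ ≤ ∑ _i : Fin n, h := by
        refine Finset.sum_le_sum fun i _ => ?_
        rw [norm_smul, b.norm_eq_one, mul_one, Real.norm_eq_abs]
        exact hx i
    _ = n * h := by simp

theorem inner_le {n : ℕ} {F : Type*} [NormedAddCommGroup F] [InnerProductSpace ℝ F]
    (b : OrthonormalBasis (Fin n) ℝ F) (x : F) (i : Fin n) : |⟪b i, x⟫_ℝ| ≤ ‖x‖ := by
  have h := abs_real_inner_le_norm (b i) x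
  rwa [b.norm_eq_one, one_mul] at h

theorem box_card {k : ℕ} (N : ℕ) :
    (Fintype.piFinset fun _ : Fin k => Finset.Icc (-(N : ℤ)) N).card = (2 * N + 1) ^ k := by
  rw [Fintype.card_piFinset]
  simp only [Int.card_Icc, Finset.prod_const, Finset.card_univ, Fintype.card_fin]
  congr 1
  omega

theorem floor_mem {x h R : ℝ} (hh : 0 < h) (hx : |x| ≤ R) (N : ℕ) (hN : R / h + 1 ≤ N) :
    ⌊x / h⌋ ∈ Finset.Icc (-(N : ℤ)) N := by
  rw [Finset.mem_Icc]
  obtain ⟨h1, h2⟩ := abs_le.1 hx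
  have h3 : x / h ≤ R / h := div_le_div_of_nonneg_right h2 hh.le
  have h4 : -(R / h) ≤ x / h := by
    rw [← neg_div]
    exact div_le_div_of_nonneg_right h1 hh.le
  constructor
  · rw [Int.le_floor]
    push_cast
    linarith
  · have h5 : (⌊x / h⌋ : ℝ) ≤ N := (Int.floor_le _).trans (by linarith)
    exact_mod_cast h5

theorem abs_lt_of_floor {x y h : ℝ} (hh : 0 < h) (he : ⌊x / h⌋ = ⌊y / h⌋) : |x - y| ≤ h := by
  have h1 := Int.floor_le (x / h)
  have h2 := Int.lt_floor_add_one (x / h)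
  have h3 := Int.floor_le (y / h)
  have h4 := Int.lt_floor_add_one (y / h)
  rw [he] at h1 h2
  have h5 : |x / h - y / h| ≤ 1 := by
    rw [abs_le]
    constructor <;> linarith
  rw [← sub_div, abs_div, abs_of_pos hh, div_le_one hh] at h5
  exact h5

theorem count {d : ℕ} (M κ : ℝ) (hM : 0 ≤ M) (hκ : 0 < κ) : ∃ C : ℝ, 1 ≤ C ∧
    ∀ (α : Type) (V : Submodule ℝ (E d)) (δ : ℝ), 0 < δ → δ ≤ 1 → ∀ (S : Finset α)
      (g : α → E d), (∀ s ∈ S, ‖g s‖ ≤ M) → (∀ s ∈ S, ‖g s - V.starProjection (g s)‖ ≤ δ) →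
      (∀ s ∈ S, ∀ s' ∈ S, s ≠ s' → κ * δ ≤ ‖g s - g s'‖) →
      (S.card : ℝ) ≤ C * δ⁻¹ ^ (finrank ℝ V) := by
  classical
  obtain ⟨C1, hC1⟩ : ∃ C1 : ℝ, C1 = 2 * M * (d + 1) / κ + 5 := ⟨_, rfl⟩
  obtain ⟨N2, hN2⟩ : ∃ N2 : ℕ, N2 = ⌈((d : ℝ) + 1) / κ⌉₊ + 1 := ⟨_, rfl⟩
  have hC11 : 1 ≤ C1 := by
    rw [hC1]
    have : 0 ≤ 2 * M * (d + 1) / κ := by positivity
    linarith
  have hC21 : (1 : ℝ) ≤ 2 * N2 + 1 := by
    have : (0 : ℝ) ≤ N2 := Nat.cast_nonneg _
    linarith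
  refine ⟨C1 ^ d * (2 * N2 + 1) ^ d, one_le_mul_of_one_le_of_one_le (one_le_pow₀ hC11)
    (one_le_pow₀ hC21), ?_⟩
  intro α V δ hδ hδ1 S g hgM hgV hsep
  have hk : finrank ℝ V + finrank ℝ Vᗮ = d := by
    rw [Submodule.finrank_add_finrank_orthogonal]
    simp
  obtain ⟨h, hh⟩ : ∃ h : ℝ, h = κ * δ / (d + 1) := ⟨_, rfl⟩
  have hd1 : (0 : ℝ) < (d : ℝ) + 1 := by positivity
  have hh0 : 0 < h := by rw [hh]; positivity
  let b := stdOrthonormalBasis ℝ V
  let b' := stdOrthonormalBasis ℝ Vᗮ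
  let P : α → V := fun s => V.orthogonalProjectionOnto (g s)
  let Q : α → Vᗮ := fun s => Vᗮ.orthogonalProjectionOnto (g s)
  have hsum : ∀ x : E d, x = (V.orthogonalProjectionOnto x : E d) + (Vᗮ.orthogonalProjectionOnto x : E d) :=
    fun x => (V.starProjection_add_starProjection_orthogonal x).symm
  obtain ⟨N1, hN1⟩ : ∃ N1 : ℕ, N1 = ⌈M / h⌉₊ + 1 := ⟨_, rfl⟩
  let Φ : α → (Fin (finrank ℝ V) → ℤ) × (Fin (finrank ℝ Vᗮ) → ℤ) := fun s =>
    (fun i => ⌊⟪b i, P s⟫_ℝ / h⌋, fun j => ⌊⟪b' j, Q s⟫_ℝ / h⌋)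
  have hP : ∀ s ∈ S, ‖P s‖ ≤ M := fun s hs =>
    (V.norm_orthogonalProjectionOnto_apply_le (g s)).trans (hgM s hs)
  have hQ : ∀ s ∈ S, ‖Q s‖ ≤ δ := by
    intro s hs
    have h1 := hgV s hs
    have h2 : g s - V.starProjection (g s) = (Q s : E d) := by
      have h3 := hsum (g s)
      show g s - (V.orthogonalProjectionOnto (g s) : E d) = _
      exact sub_eq_iff_eq_add'.2 h3
    rw [h2] at h1
    exact h1
  have hmem : ∀ s ∈ S, Φ s ∈ (Fintype.piFinset fun _ : Fin (finrank ℝ V) =>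
      Finset.Icc (-(N1 : ℤ)) N1) ×ˢ (Fintype.piFinset fun _ : Fin (finrank ℝ Vᗮ) =>
      Finset.Icc (-(N2 : ℤ)) N2) := by
    intro s hs
    rw [Finset.mem_product, Fintype.mem_piFinset, Fintype.mem_piFinset]
    constructor
    · intro i
      refine floor_mem hh0 ((inner_le b _ i).trans (hP s hs)) N1 ?_
      rw [hN1]
      push_cast
      have := Nat.le_ceil (M / h)
      linarith
    · intro j
      refine floor_mem hh0 ((inner_le b' _ j).trans (hQ s hs)) N2 ?_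
      rw [hN2]
      push_cast
      have h1 := Nat.le_ceil (((d : ℝ) + 1) / κ)
      have h2 : δ / h = ((d : ℝ) + 1) / κ := by
        rw [hh]
        field_simp
      rw [h2]
      linarith
  have hinj : Set.InjOn Φ S := by
    intro s hs s' hs' he
    by_contra hne
    have h1 := hsep s hs s' hs' hne
    have hp : ‖P s - P s'‖ ≤ finrank ℝ V * h := by
      refine norm_le_sum b _ h fun i => ?_
      rw [inner_sub_right]
      exact abs_lt_of_floor hh0 (congrFun (congrArg Prod.fst he) i)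
    have hq : ‖Q s - Q s'‖ ≤ finrank ℝ Vᗮ * h := by
      refine norm_le_sum b' _ h fun i => ?_
      rw [inner_sub_right]
      exact abs_lt_of_floor hh0 (congrFun (congrArg Prod.snd he) i)
    have h2 : g s - g s' = ((P s - P s' : V) : E d) + ((Q s - Q s' : Vᗮ) : E d) := by
      have e1 := hsum (g s)
      have e2 := hsum (g s')
      show g s - g s' = ((P s : E d) - (P s' : E d)) + ((Q s : E d) - (Q s' : E d))
      rw [show (P s : E d) - (P s' : E d) + ((Q s : E d) - (Q s' : E d)) =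
        ((P s : E d) + (Q s : E d)) - ((P s' : E d) + (Q s' : E d)) by abel]
      rw [← e1, ← e2]
    have h3 : ‖g s - g s'‖ ≤ d * h := by
      rw [h2]
      refine (norm_add_le _ _).trans ?_
      have e1 : ‖((P s - P s' : V) : E d)‖ = ‖P s - P s'‖ := rfl
      have e2 : ‖((Q s - Q s' : Vᗮ) : E d)‖ = ‖Q s - Q s'‖ := rfl
      rw [e1, e2]
      have : ((finrank ℝ V : ℕ) : ℝ) + ((finrank ℝ Vᗮ : ℕ) : ℝ) = d := by exact_mod_cast hk
      calc ‖P s - P s'‖ + ‖Q s - Q s'‖ ≤ finrank ℝ V * h + finrank ℝ Vᗮ * h := add_le_add hp hq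
        _ = (finrank ℝ V + finrank ℝ Vᗮ) * h := by ring
        _ = d * h := by rw [this]
    have h4 : d * h < κ * δ := by
      rw [hh, ← mul_div_assoc, div_lt_iff₀ hd1]
      have : 0 < κ * δ := by positivity
      nlinarith
    linarith
  have hcard := Finset.card_le_card_of_injOn Φ hmem hinj
  rw [Finset.card_product, box_card, box_card] at hcard
  have h1 : (S.card : ℝ) ≤ (2 * N1 + 1) ^ (finrank ℝ V) * (2 * N2 + 1) ^ (finrank ℝ Vᗮ) := by
    exact_mod_cast hcard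
  have h2 : (2 * (N1 : ℝ) + 1) ≤ C1 * δ⁻¹ := by
    have h3 : (N1 : ℝ) ≤ M / h + 2 := by
      rw [hN1]
      push_cast
      have := Nat.ceil_lt_add_one (show 0 ≤ M / h by positivity)
      linarith
    have h4 : M / h = M * (d + 1) / κ * δ⁻¹ := by
      rw [hh]
      field_simp
    have h5 : 1 ≤ δ⁻¹ := (one_le_inv₀ hδ).2 hδ1
    rw [h4] at h3
    rw [hC1]
    calc 2 * (N1 : ℝ) + 1 ≤ 2 * (M * (d + 1) / κ * δ⁻¹ + 2) + 1 := by linarith
      _ = 2 * M * (d + 1) / κ * δ⁻¹ + 5 := by ring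
      _ ≤ 2 * M * (d + 1) / κ * δ⁻¹ + 5 * δ⁻¹ := by linarith
      _ = _ := by ring
  have hN0 : (0 : ℝ) ≤ 2 * N1 + 1 := by positivity
  have hkd : finrank ℝ V ≤ d := by omega
  have hkd' : finrank ℝ Vᗮ ≤ d := by omega
  have hδi : 0 < δ⁻¹ := inv_pos.2 hδ
  calc (S.card : ℝ) ≤ (2 * N1 + 1) ^ (finrank ℝ V) * (2 * N2 + 1) ^ (finrank ℝ Vᗮ) := h1
    _ ≤ (C1 * δ⁻¹) ^ (finrank ℝ V) * (2 * N2 + 1) ^ d :=
        mul_le_mul (pow_le_pow_left₀ hN0 h2 _) (pow_le_pow_right₀ hC21 hkd') (by positivity)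
          (by positivity)
    _ = C1 ^ (finrank ℝ V) * (2 * N2 + 1) ^ d * δ⁻¹ ^ (finrank ℝ V) := by rw [mul_pow]; ring
    _ ≤ C1 ^ d * (2 * N2 + 1) ^ d * δ⁻¹ ^ (finrank ℝ V) := by
        refine mul_le_mul_of_nonneg_right ?_ (by positivity)
        exact mul_le_mul_of_nonneg_right (pow_le_pow_right₀ hC11 hkd) (by positivity)

/-! ### greedy selection -/

theorem select {d : ℕ} {Ω : Type} (F : Finset Ω) (u : Ω → E d) (δ : ℝ) (hδ : 0 < δ) (w : ℕ)
    (h : ∀ V : Submodule ℝ (E d), finrank ℝ V ≤ w →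
      ∃ ω ∈ F, δ < ‖u ω - V.starProjection (u ω)‖) :
    ∀ k, k ≤ w + 1 → ∃ (ω : Fin k → Ω) (f : Fin k → E d), (∀ i, ω i ∈ F) ∧ (∀ i, ‖f i‖ ≤ 1) ∧
      (∀ i j, j < i → ⟪f i, u (ω j)⟫_ℝ = 0) ∧ (∀ i, δ ≤ ⟪f i, u (ω i)⟫_ℝ) := by
  intro k
  induction k with
  | zero =>
    intro _
    exact ⟨Fin.elim0, Fin.elim0, fun i => i.elim0, fun i => i.elim0, fun i => i.elim0,
      fun i => i.elim0⟩
  | succ k ih =>
    intro hk
    obtain ⟨ω, f, h1, h2, h3, h4⟩ := ih (by omega)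
    set V : Submodule ℝ (E d) := Submodule.span ℝ (Set.range fun i => u (ω i)) with hV
    have hVk : finrank ℝ V ≤ w := by
      have := finrank_range_le_card (R := ℝ) (fun i => u (ω i))
      rw [Fintype.card_fin] at this
      exact le_trans this (by omega)
    obtain ⟨ω', hω', hQ⟩ := h V hVk
    set Q : E d := u ω' - V.starProjection (u ω') with hQdef
    have hQ0 : 0 < ‖Q‖ := hδ.trans hQ
    have horth : ∀ x ∈ V, ⟪Q, x⟫_ℝ = 0 := fun x hx =>
      Submodule.starProjection_inner_eq_zero (K := V) (u ω') x hx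
    refine ⟨Fin.snoc ω ω', Fin.snoc f (‖Q‖⁻¹ • Q), ?_, ?_, ?_, ?_⟩
    · intro i
      refine Fin.lastCases ?_ (fun i => ?_) i
      · rw [Fin.snoc_last]; exact hω'
      · rw [Fin.snoc_castSucc]; exact h1 i
    · intro i
      refine Fin.lastCases ?_ (fun i => ?_) i
      · rw [Fin.snoc_last, norm_smul, norm_inv, norm_norm, inv_mul_cancel₀ hQ0.ne']
      · rw [Fin.snoc_castSucc]; exact h2 i
    · intro i j hij
      have hj : (j : ℕ) < k := by
        have h5 : (j : ℕ) < i := hij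
        have h6 := i.2
        omega
      obtain ⟨j', rfl⟩ : ∃ j' : Fin k, j = j'.castSucc := ⟨⟨j, hj⟩, rfl⟩
      rcases Fin.eq_castSucc_or_eq_last i with ⟨i', rfl⟩ | rfl
      · rw [Fin.snoc_castSucc, Fin.snoc_castSucc]
        exact h3 i' j' hij
      · rw [Fin.snoc_last, Fin.snoc_castSucc, inner_smul_left,
          horth _ (Submodule.subset_span ⟨j', rfl⟩), mul_zero]
    · intro i
      refine Fin.lastCases ?_ (fun i => ?_) i
      · rw [Fin.snoc_last, Fin.snoc_last, inner_smul_left]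
        have h5 : ⟪Q, u ω'⟫_ℝ = ‖Q‖ ^ 2 := by
          have h6 : u ω' = Q + V.starProjection (u ω') := by rw [hQdef]; abel
          have h7 : V.starProjection (u ω') ∈ V := Submodule.starProjection_apply_mem V _
          calc ⟪Q, u ω'⟫_ℝ = ⟪Q, Q + V.starProjection (u ω')⟫_ℝ := by rw [← h6]
            _ = ⟪Q, Q⟫_ℝ := by rw [inner_add_right, horth _ h7, add_zero]
            _ = ‖Q‖ ^ 2 := real_inner_self_eq_norm_sq Q
        rw [h5]
        have h8 : (starRingEnd ℝ) ‖Q‖⁻¹ * ‖Q‖ ^ 2 = ‖Q‖ := by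
          rw [conj_trivial]
          field_simp
        rw [h8]
        exact hQ.le
      · rw [Fin.snoc_castSucc, Fin.snoc_castSucc]
        exact h4 i

/-! ### small determinants -/

theorem det_small {d m : ℕ} (W : Submodule ℝ (E d)) (hW : finrank ℝ W < m) (f x : Fin m → E d)
    (B ε : ℝ) (hf : ∀ i, ‖f i‖ ≤ 1) (hx : ∀ j, ‖x j‖ ≤ B) (hB : (m : ℝ) ≤ B) (hε : 0 < ε)
    (hxW : ∀ j, ∃ y ∈ W, ‖x j - y‖ ≤ ε) :
    |(Matrix.of fun i j => ⟪f i, x j⟫_ℝ).det| ≤ ε * ((m.factorial : ℝ) * B ^ m) := by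
  classical
  choose y hyW hy using hxW
  have hB0 : 0 ≤ B := (Nat.cast_nonneg m).trans hB
  have hm : 0 < m := by omega
  have : Nonempty (Fin m) := ⟨⟨0, hm⟩⟩
  have hdep : ¬ LinearIndependent ℝ (fun j => (⟨y j, hyW j⟩ : W)) := by
    intro hli
    have := hli.fintype_card_le_finrank
    rw [Fintype.card_fin] at this
    omega
  rw [Fintype.not_linearIndependent_iff] at hdep
  obtain ⟨c, hc, i0, hi0⟩ := hdep
  have hc' : ∑ j, c j • y j = 0 := by
    have := congrArg (Subtype.val) hc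
    simpa using this
  obtain ⟨j0, hj0⟩ := Finite.exists_max fun j => |c j|
  have hcj : c j0 ≠ 0 := by
    intro h0
    have := hj0 i0
    rw [h0, abs_zero] at this
    exact hi0 (abs_eq_zero.1 (le_antisymm this (abs_nonneg _)))
  have hcj' : 0 < |c j0| := abs_pos.2 hcj
  set c' : Fin m → ℝ := fun j => c j / c j0 with hcdef
  have hc1 : c' j0 = 1 := div_self hcj
  have hcle : ∀ j, |c' j| ≤ 1 := by
    intro j
    rw [hcdef]
    simp only
    rw [abs_div, div_le_one hcj']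
    exact hj0 j
  have hcy : ∑ j, c' j • y j = 0 := by
    have : ∑ j, c' j • y j = (c j0)⁻¹ • ∑ j, c j • y j := by
      rw [Finset.smul_sum]
      refine Finset.sum_congr rfl fun j _ => ?_
      rw [smul_smul, hcdef]
      simp only
      rw [div_eq_inv_mul]
    rw [this, hc', smul_zero]
  set e : E d := ∑ j, c' j • x j with he
  have hee : ‖e‖ ≤ m * ε := by
    have h1 : e = ∑ j, c' j • (x j - y j) := by
      rw [he]
      simp only [smul_sub, Finset.sum_sub_distrib]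
      rw [hcy, sub_zero]
    rw [h1]
    calc ‖∑ j, c' j • (x j - y j)‖ ≤ ∑ j, ‖c' j • (x j - y j)‖ := norm_sum_le _ _
      _ ≤ ∑ _j : Fin m, ε := by
          refine Finset.sum_le_sum fun j _ => ?_
          rw [norm_smul, Real.norm_eq_abs]
          calc |c' j| * ‖x j - y j‖ ≤ 1 * ε :=
                mul_le_mul (hcle j) (hy j) (norm_nonneg _) zero_le_one
            _ = ε := one_mul _
      _ = m * ε := by simp
  set A : Matrix (Fin m) (Fin m) ℝ := Matrix.of fun i j => ⟪f i, x j⟫_ℝ with hA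
  have h1 := Matrix.det_updateCol_sum A j0 c'
  rw [hc1, one_smul] at h1
  have h2 : (fun k => ∑ i, c' i • A k i) = ε • fun k => ε⁻¹ * ⟪f k, e⟫_ℝ := by
    funext k
    show ∑ i, c' i • ⟪f k, x i⟫_ℝ = ε * (ε⁻¹ * ⟪f k, e⟫_ℝ)
    have h3 : ⟪f k, e⟫_ℝ = ∑ i, c' i • ⟪f k, x i⟫_ℝ := by
      rw [he, inner_sum]
      refine Finset.sum_congr rfl fun j _ => ?_
      rw [inner_smul_right, smul_eq_mul]
    rw [← mul_assoc, mul_inv_cancel₀ hε.ne', one_mul, h3]
  rw [h2, Matrix.det_updateCol_smul] at h1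
  rw [← h1, abs_mul, abs_of_pos hε]
  refine mul_le_mul_of_nonneg_left ?_ hε.le
  have h3 := Matrix.det_le (A := A.updateCol j0 fun k => ε⁻¹ * ⟪f k, e⟫_ℝ)
    (abv := AbsoluteValue.abs) (x := B) (by
      intro i j
      show |A.updateCol j0 (fun k => ε⁻¹ * ⟪f k, e⟫_ℝ) i j| ≤ B
      rw [Matrix.updateCol_apply]
      split_ifs with hj
      · rw [abs_mul, abs_of_pos (inv_pos.2 hε)]
        have h4 : |⟪f i, e⟫_ℝ| ≤ m * ε := by
          refine (abs_real_inner_le_norm _ _).trans ?_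
          calc ‖f i‖ * ‖e‖ ≤ 1 * (m * ε) := mul_le_mul (hf i) hee (norm_nonneg _) zero_le_one
            _ = m * ε := one_mul _
        calc ε⁻¹ * |⟪f i, e⟫_ℝ| ≤ ε⁻¹ * (m * ε) :=
              mul_le_mul_of_nonneg_left h4 (inv_pos.2 hε).le
          _ = m := by field_simp
          _ ≤ B := hB
      · show |⟪f i, x j⟫_ℝ| ≤ B
        refine (abs_real_inner_le_norm _ _).trans ?_
        calc ‖f i‖ * ‖x j‖ ≤ 1 * B := mul_le_mul (hf i) (hx j) (norm_nonneg _) zero_le_one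
          _ = B := one_mul _)
  rw [Fintype.card_fin] at h3
  simpa using h3

end Pool.Agent.V5helper12.SSK
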