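import Pool.Agent.V5helper28.SSK.DefsF
import Pool.Agent.V5helper12.SSK.W1

/-!
# JOB F
-/

set_option autoImplicit false

namespace Pool.Agent.V5helper12.SSK

open Pool.Agent.V5helper28.SSK
open Module
open scoped InnerProductSpace

/-! ### binomial coefficients -/

theorem central_sq : ∀ n : ℕ, 1 ≤ n → 16 ^ n ≤ 4 * n * ((2 * n).choose n) ^ 2 := by
  intro n hn
  induction n, hn using Nat.le_induction with
  | base => decide
  | succ n hn ih =>
    have h1 : (n + 1) * Nat.centralBinom (n + 1) = 2 * (2 * n + 1) * Nat.centralBinom n :=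
      Nat.succ_mul_centralBinom_succ n
    rw [Nat.centralBinom_eq_two_mul_choose, Nat.centralBinom_eq_two_mul_choose] at h1
    set a := (2 * n).choose n
    set b := (2 * (n + 1)).choose (n + 1)
    have h2 : (n + 1) ^ 2 * b ^ 2 = 4 * (2 * n + 1) ^ 2 * a ^ 2 := by
      calc (n + 1) ^ 2 * b ^ 2 = ((n + 1) * b) ^ 2 := by ring
        _ = (2 * (2 * n + 1) * a) ^ 2 := by rw [h1]
        _ = _ := by ring
    have h3 : n * (n + 1) * 16 ^ (n + 1) ≤ n * (n + 1) * (4 * (n + 1) * b ^ 2) := by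
      calc n * (n + 1) * 16 ^ (n + 1) = (4 * n * (n + 1)) * (4 * 16 ^ n) := by ring
        _ ≤ (2 * n + 1) ^ 2 * (4 * (4 * n * a ^ 2)) :=
            Nat.mul_le_mul (by nlinarith) (Nat.mul_le_mul_left 4 ih)
        _ = 4 * n * (4 * (2 * n + 1) ^ 2 * a ^ 2) := by ring
        _ = 4 * n * ((n + 1) ^ 2 * b ^ 2) := by rw [h2]
        _ = n * (n + 1) * (4 * (n + 1) * b ^ 2) := by ring
    exact Nat.le_of_mul_le_mul_left h3 (by positivity)

/-- binomial coefficients near the centre -/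
theorem near_central (n : ℕ) : ∀ k : ℕ, k ≤ n →
    ((n : ℤ) - k ^ 2) * ((2 * n).choose n : ℤ) ≤ n * ((2 * n).choose (n + k) : ℤ) := by
  intro k
  induction k with
  | zero => intro _; simp
  | succ k ih =>
    intro hk
    have h0 := ih (by omega)
    have h1 : (2 * n).choose (n + k + 1) * (n + k + 1) = (2 * n).choose (n + k) * (2 * n - (n + k)) :=
      Nat.choose_succ_right_eq (2 * n) (n + k)
    have h2 : 2 * n - (n + k) = n - k := by omega
    rw [h2] at h1
    have h3 : ((2 * n).choose (n + k + 1) : ℤ) * (n + k + 1) = ((2 * n).choose (n + k) : ℤ) * (n - k) := by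
      have h4 : ((n - k : ℕ) : ℤ) = (n : ℤ) - k := by
        rw [Nat.cast_sub (by omega)]
      rw [← h4]
      exact_mod_cast h1
    set a := ((2 * n).choose n : ℤ) with ha
    set b := ((2 * n).choose (n + k) : ℤ)
    have hc : (2 * n).choose (n + (k + 1)) = (2 * n).choose (n + k + 1) := by rw [add_assoc]
    rw [hc]
    set c := ((2 * n).choose (n + k + 1) : ℤ)
    have ha0 : 0 ≤ a := by rw [ha]; positivity
    have hkn : (0 : ℤ) ≤ (n : ℤ) - k := by omega
    have h5 : ((n : ℤ) - k ^ 2) * a * (n - k) ≤ n * b * (n - k) :=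
      mul_le_mul_of_nonneg_right h0 hkn
    have h6 : ((n : ℤ) - ((k + 1 : ℕ) : ℤ) ^ 2) * a * (n + k + 1) ≤ n * c * (n + k + 1) := by
      have e1 : (n : ℤ) * c * (n + k + 1) = n * b * (n - k) := by
        rw [mul_assoc, h3]; ring
      rw [e1]
      refine le_trans ?_ h5
      have e2 : ((n : ℤ) - ((k + 1 : ℕ) : ℤ) ^ 2) * (n + k + 1) ≤ ((n : ℤ) - k ^ 2) * (n - k) := by
        push_cast
        have : (0 : ℤ) ≤ k := by positivity
        nlinarith [pow_nonneg this 3, pow_nonneg this 2]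
      calc ((n : ℤ) - ((k + 1 : ℕ) : ℤ) ^ 2) * a * (n + k + 1)
          = (((n : ℤ) - ((k + 1 : ℕ) : ℤ) ^ 2) * (n + k + 1)) * a := by ring
        _ ≤ (((n : ℤ) - k ^ 2) * (n - k)) * a := mul_le_mul_of_nonneg_right e2 ha0
        _ = _ := by ring
    exact le_of_mul_le_mul_right h6 (by positivity)

/-- In the window of length `L` around `n = L²` all binomial coefficients are large. -/
theorem window (L : ℕ) (hL : 1 ≤ L) : ∃ t : ℕ, 4 ^ (L ^ 2) ≤ 8 * (L * t) ∧
    ∀ h : ℕ, h < L → t ≤ (2 * L ^ 2).choose (L ^ 2 - L / 2 + h) := by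
  set n := L ^ 2 with hn
  have hLn : L ≤ n := by rw [hn]; nlinarith
  have hn1 : 1 ≤ n := by omega
  refine ⟨4 ^ n / (8 * L) + 1, ?_, ?_⟩
  · have h1 := Nat.lt_div_mul_add (a := 4 ^ n) (b := 8 * L) (by positivity)
    nlinarith
  · intro h hh
    -- the centre
    have hc : 4 ^ n ≤ 2 * L * (2 * n).choose n := by
      have h1 := central_sq n hn1
      have h2 : (4 ^ n) ^ 2 ≤ (2 * L * (2 * n).choose n) ^ 2 := by
        calc (4 ^ n) ^ 2 = 16 ^ n := by rw [← pow_mul, mul_comm, pow_mul]; norm_num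
          _ ≤ 4 * n * ((2 * n).choose n) ^ 2 := h1
          _ = (2 * L * (2 * n).choose n) ^ 2 := by rw [hn]; ring
      exact (Nat.pow_le_pow_iff_left (by norm_num)).1 h2
    -- distance `k` from the centre
    obtain ⟨k, hk, hke⟩ : ∃ k : ℕ, 2 * k ≤ L ∧
        (2 * n).choose (n - L / 2 + h) = (2 * n).choose (n + k) := by
      rcases Nat.lt_or_ge (n - L / 2 + h) n with h1 | h1
      · refine ⟨n - (n - L / 2 + h), by omega, ?_⟩
        have h2 : n - L / 2 + h ≤ 2 * n := by omega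
        rw [← Nat.choose_symm h2]
        congr 1
        omega
      · exact ⟨n - L / 2 + h - n, by omega, by congr 1; omega⟩
    rw [hke]
    have hkn : k ≤ n := by omega
    have h3 := near_central n k hkn
    have h4 : (4 : ℤ) * k ^ 2 ≤ n := by
      have : ((2 * k : ℕ) : ℤ) ^ 2 ≤ (L : ℤ) ^ 2 := by
        have : ((2 * k : ℕ) : ℤ) ≤ L := by exact_mod_cast hk
        exact pow_le_pow_left₀ (by positivity) this 2
      rw [hn]
      push_cast at this ⊢
      linarith
    set a := (2 * n).choose n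
    set b := (2 * n).choose (n + k)
    have h5 : 3 * a ≤ 4 * b := by
      have ha : (0 : ℤ) ≤ (a : ℤ) := by positivity
      have h6 : (n : ℤ) * (3 * a) ≤ n * (4 * b) := by nlinarith
      have h7 := le_of_mul_le_mul_left h6 (by exact_mod_cast hn1)
      exact_mod_cast h7
    have h6 : 3 * 4 ^ n ≤ 8 * L * b := by nlinarith
    have h7 : 8 * L ≤ 2 * 4 ^ n := by
      have : L < 4 ^ L := Nat.lt_pow_self (by norm_num)
      have h8 : 4 ^ L ≤ 4 ^ n := Nat.pow_le_pow_right (by norm_num) hLn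
      rcases Nat.lt_or_ge L 2 with h9 | h9
      · have : L = 1 := by omega
        subst this
        norm_num [hn]
      · have h10 : 4 ^ (L + 1) ≤ 4 ^ n := Nat.pow_le_pow_right (by norm_num) (by rw [hn]; nlinarith)
        rw [pow_succ] at h10
        omega
    have h8 : 8 * L * (4 ^ n / (8 * L)) ≤ 4 ^ n := Nat.mul_div_le _ _
    have h9 : 8 * L * (4 ^ n / (8 * L) + 1) ≤ 8 * L * b := by nlinarith
    exact Nat.le_of_mul_le_mul_left h9 (by positivity)

/-- disjoint transversals of the weights -/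
theorem transversals (L : ℕ) (hL : 1 ≤ L) : ∃ (t : ℕ) (Ψ : Fin L × Fin t → Finset (Fin (2 * L ^ 2))),
    4 ^ (L ^ 2) ≤ 8 * (L * t) ∧ Function.Injective Ψ ∧
    ∀ h i, (Ψ (h, i)).card = L ^ 2 - L / 2 + h := by
  obtain ⟨t, ht, hw⟩ := window L hL
  have h1 : ∀ h : Fin L, ∃ f : Fin t → Finset (Fin (2 * L ^ 2)), Function.Injective f ∧
      ∀ i, (f i).card = L ^ 2 - L / 2 + h := by
    intro h
    have h2 : t ≤ (Finset.powersetCard (L ^ 2 - L / 2 + h)
        (Finset.univ : Finset (Fin (2 * L ^ 2)))).card := by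
      rw [Finset.card_powersetCard, Finset.card_univ, Fintype.card_fin]
      exact hw h h.2
    set S := Finset.powersetCard (L ^ 2 - L / 2 + (h : ℕ)) (Finset.univ : Finset (Fin (2 * L ^ 2)))
      with hS
    refine ⟨fun i => (S.equivFin.symm (Fin.castLE h2 i)).1, fun i j hij => ?_, fun i => ?_⟩
    · have h3 := S.equivFin.symm.injective (Subtype.ext hij)
      exact Fin.castLE_injective h2 h3
    · have h3 := (S.equivFin.symm (Fin.castLE h2 i)).2
      exact (Finset.mem_powersetCard.1 h3).2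
  choose f hf1 hf2 using h1
  refine ⟨t, fun x => f x.1 x.2, ht, ?_, fun h i => hf2 h i⟩
  rintro ⟨h, i⟩ ⟨h', i'⟩ hij
  simp only at hij
  have h3 : h = h' := by
    have h4 := hf2 h i
    have h5 := hf2 h' i'
    rw [hij, h5] at h4
    exact Fin.ext (by omega)
  subst h3
  rw [hf1 h hij]

/-! ### coins -/

/-- one group of coordinates -/
theorem coins {d : ℕ} {F M : Type} [Fintype F] [Fintype M] (φ : Bool × M → F)
    (hφ : Function.Injective φ) (Y : F → E d) : ∀ n : ℕ, ∃ (A : Type) (_ : Fintype A)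
      (Φ : Bool × A → Fin n → F) (s : A → E d) (μ : A → M), Function.Injective Φ ∧
      2 * Fintype.card A + (Fintype.card F - 2 * Fintype.card M) ^ n = (Fintype.card F) ^ n ∧
      ∀ b a, ∑ k, Y (Φ (b, a) k) =
        s a + if b then Y (φ (true, μ a)) - Y (φ (false, μ a)) else 0 := by
  classical
  intro n
  have hMF : 2 * Fintype.card M ≤ Fintype.card F := by
    have := Fintype.card_le_of_injective φ hφ
    rwa [Fintype.card_prod, Fintype.card_bool] at this
  induction n with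
  | zero =>
    refine ⟨Empty, inferInstance, fun x => x.2.elim, fun a => a.elim, fun a => a.elim, ?_, ?_, ?_⟩
    · intro x
      exact x.2.elim
    · simp
    · intro b a
      exact a.elim
  | succ n ih =>
    obtain ⟨A, hA, Φ, s, μ, h1, h2, h3⟩ := ih
    let Gc : Type := {x : F // x ∉ Set.range φ}
    have hGc : Fintype.card Gc = Fintype.card F - 2 * Fintype.card M := by
      have e1 : Fintype.card Gc = Fintype.card F - Fintype.card {x : F // x ∈ Set.range φ} :=
        Fintype.card_subtype_compl _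
      rw [e1]
      congr 1
      have e2 : Fintype.card {x : F // x ∈ Set.range φ} = Fintype.card (Bool × M) :=
        (Fintype.card_congr (Equiv.ofInjective φ hφ)).symm
      rw [e2, Fintype.card_prod, Fintype.card_bool]
    let Φ' : Bool × ((M × (Fin n → F)) ⊕ (Gc × A)) → Fin (n + 1) → F := fun x =>
      match x.2 with
      | Sum.inl y => Fin.cons (φ (x.1, y.1)) y.2
      | Sum.inr y => Fin.cons y.1.1 (Φ (x.1, y.2))
    let s' : (M × (Fin n → F)) ⊕ (Gc × A) → E d := fun x =>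
      match x with
      | Sum.inl y => Y (φ (false, y.1)) + ∑ k, Y (y.2 k)
      | Sum.inr y => Y y.1.1 + s y.2
    let μ' : (M × (Fin n → F)) ⊕ (Gc × A) → M := fun x =>
      match x with
      | Sum.inl y => y.1
      | Sum.inr y => μ y.2
    refine ⟨(M × (Fin n → F)) ⊕ (Gc × A), inferInstance, Φ', s', μ', ?_, ?_, ?_⟩
    · rintro ⟨b, x | x⟩ ⟨b', x' | x'⟩ he
      · have he' : (Fin.cons (φ (b, x.1)) x.2 : Fin (n + 1) → F) = Fin.cons (φ (b', x'.1)) x'.2 := he
        rw [Fin.cons_inj] at he'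
        have e1 := hφ he'.1
        simp only [Prod.mk.injEq] at e1
        have e2 : x = x' := Prod.ext e1.2 he'.2
        rw [e1.1, e2]
      · exfalso
        have he' : (Fin.cons (φ (b, x.1)) x.2 : Fin (n + 1) → F) = Fin.cons x'.1.1 (Φ (b', x'.2)) := he
        rw [Fin.cons_inj] at he'
        exact x'.1.2 ⟨_, he'.1⟩
      · exfalso
        have he' : (Fin.cons x.1.1 (Φ (b, x.2)) : Fin (n + 1) → F) = Fin.cons (φ (b', x'.1)) x'.2 := he
        rw [Fin.cons_inj] at he'
        exact x.1.2 ⟨_, he'.1.symm⟩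
      · have he' : (Fin.cons x.1.1 (Φ (b, x.2)) : Fin (n + 1) → F) =
          Fin.cons x'.1.1 (Φ (b', x'.2)) := he
        rw [Fin.cons_inj] at he'
        have e1 := h1 he'.2
        simp only [Prod.mk.injEq] at e1
        have e2 : x = x' := Prod.ext (Subtype.ext he'.1) e1.2
        rw [e1.1, e2]
    · rw [Fintype.card_sum, Fintype.card_prod, Fintype.card_prod, Fintype.card_fun,
        Fintype.card_fin, hGc]
      set a := Fintype.card A
      set f := Fintype.card F
      set m := Fintype.card M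
      obtain ⟨g, hg⟩ : ∃ g, f = 2 * m + g := ⟨f - 2 * m, by omega⟩
      have hg' : f - 2 * m = g := by omega
      rw [hg'] at h2 ⊢
      calc 2 * (m * f ^ n + g * a) + g ^ (n + 1) = 2 * m * f ^ n + g * (2 * a + g ^ n) := by ring
        _ = 2 * m * f ^ n + g * f ^ n := by rw [h2]
        _ = (2 * m + g) * f ^ n := by ring
        _ = f ^ (n + 1) := by rw [← hg]; ring
    · rintro b (x | x)
      · show ∑ k, Y ((Fin.cons (φ (b, x.1)) x.2 : Fin (n + 1) → F) k) =
          (Y (φ (false, x.1)) + ∑ k, Y (x.2 k)) +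
            if b then Y (φ (true, x.1)) - Y (φ (false, x.1)) else 0
        rw [Fin.sum_univ_succ]
        simp only [Fin.cons_zero, Fin.cons_succ]
        cases b
        · simp
        · simp only [if_true]
          abel
      · show ∑ k, Y ((Fin.cons x.1.1 (Φ (b, x.2)) : Fin (n + 1) → F) k) =
          (Y x.1.1 + s x.2) + if b then Y (φ (true, μ x.2)) - Y (φ (false, μ x.2)) else 0
        rw [Fin.sum_univ_succ]
        simp only [Fin.cons_zero, Fin.cons_succ]
        rw [h3]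
        abel

/-! ### a class of nearly equal steps -/

theorem class_exists (d : ℕ) (N : ℕ) (hN : 1 ≤ N) : ∃ P : ℕ, 1 ≤ P ∧ ∀ (M : Type) [Fintype M]
    (z : M → E d) (δ : ℝ), 0 < δ → (∀ m, ‖z m‖ ≤ δ) → ∃ M₀ : Finset M,
      Fintype.card M ≤ P * M₀.card ∧ ∀ m ∈ M₀, ∀ m' ∈ M₀, N * ‖z m - z m'‖ ≤ δ := by
  classical
  obtain ⟨R, hR⟩ : ∃ R : ℕ, R = N * (d + 1) + 1 := ⟨_, rfl⟩
  refine ⟨(2 * R + 1) ^ d, Nat.one_le_pow _ _ (by omega), ?_⟩
  intro M _ z δ hδ hz
  have hNr : (1 : ℝ) ≤ N := by exact_mod_cast hN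
  obtain ⟨h, hh⟩ : ∃ h : ℝ, h = δ / (N * (d + 1)) := ⟨_, rfl⟩
  have hh0 : 0 < h := by rw [hh]; positivity
  let b := EuclideanSpace.basisFun (Fin d) ℝ
  let Φ : M → Fin d → ℤ := fun m i => ⌊⟪b i, z m⟫_ℝ / h⌋
  set T := Fintype.piFinset fun _ : Fin d => Finset.Icc (-(R : ℤ)) R with hT
  have hmaps : ∀ m ∈ (Finset.univ : Finset M), Φ m ∈ T := by
    intro m _
    rw [hT, Fintype.mem_piFinset]
    intro i
    refine floor_mem hh0 ((inner_le b _ i).trans (hz m)) R ?_
    have e : δ / h = N * (d + 1) := by rw [hh]; field_simp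
    rw [e, hR]
    push_cast
    linarith
  have hTne : T.Nonempty := by
    rw [← Finset.card_pos, hT, box_card]
    positivity
  by_contra hcon
  push Not at hcon
  have hfib : ∀ y ∈ T, T.card * ((Finset.univ : Finset M).filter fun m => Φ m = y).card <
      Fintype.card M := by
    intro y _
    by_contra h1
    push Not at h1
    rw [hT, box_card] at h1
    obtain ⟨m, hm, m', hm', h2⟩ := hcon _ h1
    have e1 := (Finset.mem_filter.1 hm).2
    have e2 := (Finset.mem_filter.1 hm').2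
    have h3 : ‖z m - z m'‖ ≤ d * h := by
      refine norm_le_sum b _ h fun i => ?_
      rw [inner_sub_right]
      refine abs_lt_of_floor hh0 ?_
      have := congrFun (e1.trans e2.symm) i
      exact this
    have h4 : (N : ℝ) * (d * h) ≤ δ := by
      rw [hh]
      have : (N : ℝ) * (d * (δ / (N * (d + 1)))) = δ * (d / (d + 1)) := by field_simp
      rw [this]
      have h5 : (d : ℝ) / (d + 1) ≤ 1 := by
        rw [div_le_one (by positivity)]; linarith
      nlinarith
    have h5 : (N : ℝ) * ‖z m - z m'‖ ≤ N * (d * h) := mul_le_mul_of_nonneg_left h3 (by linarith)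
    linarith
  have hsum := Finset.card_eq_sum_card_fiberwise (f := Φ) (s := Finset.univ) (t := T) hmaps
  rw [Finset.card_univ] at hsum
  have h6 : T.card * Fintype.card M < T.card * Fintype.card M := by
    calc T.card * Fintype.card M
        = ∑ y ∈ T, T.card * ((Finset.univ : Finset M).filter fun m => Φ m = y).card := by
          rw [← Finset.mul_sum, ← hsum]
      _ < ∑ _y ∈ T, Fintype.card M := Finset.sum_lt_sum_of_nonempty hTne hfib
      _ = T.card * Fintype.card M := by rw [Finset.sum_const, smul_eq_mul]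
  exact lt_irrefl _ h6

/-! ### assembly -/

theorem exists_pow_small (q c : ℝ) (hq : 0 < q) (hq1 : q ≤ 1) (hc : 0 < c) :
    ∃ n₀ : ℕ, (1 - q) ^ n₀ ≤ c := by
  obtain ⟨n, hn⟩ := exists_pow_lt_of_lt_one hc (show 1 - q < 1 by linarith)
  exact ⟨n, hn.le⟩

/-- the counting part -/
theorem count_groups (f m n₀ J a : ℕ) (q : ℝ) (hJ : 1 ≤ J) (hq1 : q ≤ 1) (hf : 1 ≤ f)
    (hm : 2 * m ≤ f) (hqm : q * f ≤ 2 * m) (hn : (1 - q) ^ n₀ ≤ 1 / (2 * J))
    (ha : 2 * a + (f - 2 * m) ^ n₀ = f ^ n₀) : f ^ (J * n₀) ≤ 2 * (2 * a) ^ J := by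
  have hfr : (1 : ℝ) ≤ f := by exact_mod_cast hf
  have hJr : (1 : ℝ) ≤ J := by exact_mod_cast hJ
  have h1 : (((f - 2 * m : ℕ) : ℝ)) = (f : ℝ) - 2 * m := by
    rw [Nat.cast_sub hm]; push_cast; ring
  have h2 : (2 * a : ℝ) + ((f : ℝ) - 2 * m) ^ n₀ = (f : ℝ) ^ n₀ := by
    rw [← h1]; exact_mod_cast ha
  have h3 : ((f : ℝ) - 2 * m) ^ n₀ ≤ (f : ℝ) ^ n₀ * (1 / (2 * J)) := by
    have h4 : (f : ℝ) - 2 * m ≤ (1 - q) * f := by linarith
    have h5 : (0 : ℝ) ≤ (f : ℝ) - 2 * m := by rw [← h1]; positivity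
    calc ((f : ℝ) - 2 * m) ^ n₀ ≤ ((1 - q) * f) ^ n₀ := pow_le_pow_left₀ h5 h4 _
      _ = (f : ℝ) ^ n₀ * (1 - q) ^ n₀ := by rw [mul_pow]; ring
      _ ≤ _ := mul_le_mul_of_nonneg_left hn (by positivity)
  have h4 : (f : ℝ) ^ n₀ * (1 - 1 / (2 * J)) ≤ 2 * a := by
    have : (f : ℝ) ^ n₀ * (1 - 1 / (2 * J)) = (f : ℝ) ^ n₀ - (f : ℝ) ^ n₀ * (1 / (2 * J)) := by ring
    linarith
  have h5 : (1 : ℝ) / 2 ≤ (1 - 1 / (2 * J)) ^ J := by
    have h6 := one_add_mul_le_pow (a := -(1 / (2 * (J : ℝ)))) (by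
      have : 1 / (2 * (J : ℝ)) ≤ 1 := by
        rw [div_le_one (by positivity)]; linarith
      linarith) J
    have h7 : 1 + (J : ℝ) * -(1 / (2 * (J : ℝ))) = 1 / 2 := by
      field_simp; norm_num
    rw [h7] at h6
    have h8 : (1 : ℝ) + -(1 / (2 * (J : ℝ))) = 1 - 1 / (2 * J) := by ring
    rwa [h8] at h6
  have h6 : (f : ℝ) ^ (J * n₀) ≤ 2 * (2 * a) ^ J := by
    have h7 : (0 : ℝ) ≤ (f : ℝ) ^ n₀ * (1 - 1 / (2 * J)) := by
      refine mul_nonneg (by positivity) ?_
      have : 1 / (2 * (J : ℝ)) ≤ 1 := by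
        rw [div_le_one (by positivity)]; linarith
      linarith
    have h8 := pow_le_pow_left₀ h7 h4 J
    rw [mul_pow, ← pow_mul, mul_comm n₀ J] at h8
    have h9 : (f : ℝ) ^ (J * n₀) * (1 / 2) ≤ (f : ℝ) ^ (J * n₀) * (1 - 1 / (2 * J)) ^ J :=
      mul_le_mul_of_nonneg_left h5 (by positivity)
    linarith
  exact_mod_cast h6

theorem jobF : JobF := by
  classical
  intro d p L hp hL
  obtain ⟨J, hJ⟩ : ∃ J : ℕ, J = 2 * L ^ 2 := ⟨_, rfl⟩
  have hJ1 : 1 ≤ J := by
    rw [hJ]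
    have : 1 ≤ L ^ 2 := Nat.one_le_pow _ _ hL
    omega
  obtain ⟨P, hP1, hP⟩ := class_exists d J hJ1
  obtain ⟨q, hq⟩ : ∃ q : ℝ, q = min (p / P) 1 := ⟨_, rfl⟩
  have hPr : (1 : ℝ) ≤ P := by exact_mod_cast hP1
  have hq0 : 0 < q := by rw [hq]; exact lt_min (by positivity) one_pos
  have hq1 : q ≤ 1 := by rw [hq]; exact min_le_right _ _
  have hJr : (1 : ℝ) ≤ J := by exact_mod_cast hJ1
  obtain ⟨n₀, hn₀⟩ := exists_pow_small q (1 / (2 * J)) hq0 hq1 (by positivity)
  refine ⟨J * n₀, ?_⟩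
  intro F M _ _ φ Y δ hδ hF hφ hpF hY
  have hFc : 1 ≤ Fintype.card F := Fintype.card_pos
  have hFr : (1 : ℝ) ≤ Fintype.card F := by exact_mod_cast hFc
  obtain ⟨M₀, hM₀, hz⟩ := hP M (fun m => Y (φ (true, m)) - Y (φ (false, m))) δ hδ hY
  have hMF : 2 * M₀.card ≤ Fintype.card F := by
    have h1 := Fintype.card_le_of_injective φ hφ
    rw [Fintype.card_prod, Fintype.card_bool] at h1
    have h2 : M₀.card ≤ Fintype.card M := Finset.card_le_univ M₀
    omega
  have hqM : q * Fintype.card F ≤ 2 * M₀.card := by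
    have h1 : q ≤ p / P := by rw [hq]; exact min_le_left _ _
    have h2 : (Fintype.card M : ℝ) ≤ P * M₀.card := by exact_mod_cast hM₀
    have h3 : p * Fintype.card F ≤ P * (2 * M₀.card) := by linarith
    have h4 : p / P * Fintype.card F ≤ 2 * M₀.card := by
      rw [div_mul_eq_mul_div, div_le_iff₀ (by positivity)]
      linarith
    have h5 : q * Fintype.card F ≤ p / P * Fintype.card F :=
      mul_le_mul_of_nonneg_right h1 (by positivity)
    linarith
  have hMne : M₀.Nonempty := by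
    rw [← Finset.card_pos]
    have h1 : (0 : ℝ) < 2 * M₀.card := lt_of_lt_of_le (by positivity) hqM
    have h2 : (0 : ℝ) < M₀.card := by linarith
    exact_mod_cast h2
  obtain ⟨m₀, hm₀⟩ := hMne
  -- the coins
  have hφ' : Function.Injective (fun x : Bool × M₀ => φ (x.1, x.2.1)) := by
    intro x y hxy
    have h1 := hφ hxy
    simp only [Prod.mk.injEq] at h1
    exact Prod.ext h1.1 (Subtype.ext h1.2)
  obtain ⟨A, hA, Φ₁, s₁, μ, hΦ₁, hcard, hsum⟩ :=
    coins (fun x : Bool × M₀ => φ (x.1, x.2.1)) hφ' Y n₀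
  rw [Fintype.card_coe] at hcard
  have hcount := count_groups (Fintype.card F) M₀.card n₀ J (Fintype.card A) q hJ1 hq1 hFc hMF hqM
    hn₀ hcard
  have htr : ∃ (t : ℕ) (Ψ : Fin L × Fin t → Finset (Fin J)),
      4 ^ (L ^ 2) ≤ 8 * (L * t) ∧ Function.Injective Ψ ∧
      ∀ h i, (Ψ (h, i)).card = L ^ 2 - L / 2 + h := by
    rw [hJ]
    exact transversals L hL
  obtain ⟨t, Ψ, ht, hΨi, hΨc⟩ := htr
  obtain ⟨z, hzd⟩ : ∃ z : M → E d, z = fun m => Y (φ (true, m)) - Y (φ (false, m)) := ⟨_, rfl⟩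
  let Φ : Fin L × (Fin t × (Fin J → A)) → Fin (J * n₀) → F := fun x l =>
    Φ₁ (decide ((finProdFinEquiv.symm l).1 ∈ Ψ (x.1, x.2.1)), x.2.2 (finProdFinEquiv.symm l).1)
      (finProdFinEquiv.symm l).2
  let s : Fin t × (Fin J → A) → E d := fun x =>
    ∑ g, s₁ (x.2 g) + ((L ^ 2 - L / 2 : ℕ) : ℝ) • z m₀
  refine ⟨m₀, Fin t × (Fin J → A), inferInstance, Φ, s, ?_, ?_, ?_⟩
  · intro x x' hxx
    have h1 : ∀ g : Fin J, (decide (g ∈ Ψ (x.1, x.2.1)), x.2.2 g) =
        (decide (g ∈ Ψ (x'.1, x'.2.1)), x'.2.2 g) := by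
      intro g
      apply hΦ₁
      funext k
      have h2 := congrFun hxx (finProdFinEquiv (g, k))
      simpa only [Φ, Equiv.symm_apply_apply] using h2
    have h2 : Ψ (x.1, x.2.1) = Ψ (x'.1, x'.2.1) := by
      ext g
      have h3 := congrArg Prod.fst (h1 g)
      simpa using h3
    have h3 := hΨi h2
    have h4 : x.2.2 = x'.2.2 := by
      funext g
      exact congrArg Prod.snd (h1 g)
    simp only [Prod.mk.injEq] at h3
    exact Prod.ext h3.1 (Prod.ext h3.2 h4)
  · rw [Fintype.card_prod, Fintype.card_fun, Fintype.card_fin, Fintype.card_fin]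
    calc (Fintype.card F) ^ (J * n₀) ≤ 2 * (2 * Fintype.card A) ^ J := hcount
      _ = 2 * 4 ^ (L ^ 2) * (Fintype.card A) ^ J := by
          rw [mul_pow]
          have : 2 ^ J = 4 ^ (L ^ 2) := by rw [hJ, pow_mul]; norm_num
          rw [this]; ring
      _ ≤ 2 * (8 * (L * t)) * (Fintype.card A) ^ J := by gcongr
      _ = 16 * (L * (t * Fintype.card A ^ J)) := by ring
  · rintro h ⟨i, y⟩
    have h1 : ∑ l, Y (Φ (h, (i, y)) l) =
        ∑ g, s₁ (y g) + ∑ g ∈ Ψ (h, i), z (μ (y g)) := by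
      have e1 : ∑ l, Y (Φ (h, (i, y)) l) = ∑ gk : Fin J × Fin n₀,
          Y (Φ₁ (decide (gk.1 ∈ Ψ (h, i)), y gk.1) gk.2) :=
        Fintype.sum_equiv finProdFinEquiv.symm _ _ (fun l => rfl)
      have e2 : ∀ g, ∑ k, Y (Φ₁ (decide (g ∈ Ψ (h, i)), y g) k) =
          s₁ (y g) + if g ∈ Ψ (h, i) then z (μ (y g)) else 0 := by
        intro g
        rw [hsum, hzd]
        by_cases hg : g ∈ Ψ (h, i)
        · simp [hg]
        · simp [hg]
      rw [e1, Fintype.sum_prod_type, Finset.sum_congr rfl fun g _ => e2 g, Finset.sum_add_distrib,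
        ← Finset.sum_filter, Finset.filter_mem_eq_inter, Finset.univ_inter]
    have h2 : ∑ l, Y (Φ (h, (i, y)) l) - s (i, y) - ((h : ℕ) : ℝ) • (Y (φ (true, m₀)) - Y (φ (false, m₀)))
        = ∑ g ∈ Ψ (h, i), (z (μ (y g)) - z m₀) := by
      have h5 : Y (φ (true, m₀)) - Y (φ (false, m₀)) = z m₀ := by rw [hzd]
      rw [h1, Finset.sum_sub_distrib, Finset.sum_const, hΨc, h5]
      show ∑ g, s₁ (y g) + ∑ g ∈ Ψ (h, i), z (μ (y g)) -
        (∑ g, s₁ (y g) + ((L ^ 2 - L / 2 : ℕ) : ℝ) • z m₀) - ((h : ℕ) : ℝ) • z m₀ = _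
      rw [← Nat.cast_smul_eq_nsmul ℝ, Nat.cast_add, add_smul]
      abel
    rw [h2]
    have h3 : ∀ g ∈ Ψ (h, i), ‖z (μ (y g)) - z m₀‖ ≤ δ / J := by
      intro g _
      rw [le_div_iff₀ (by positivity), mul_comm]
      have := hz _ (μ (y g)).2 _ hm₀
      rw [hzd]
      exact this
    calc ‖∑ g ∈ Ψ (h, i), (z (μ (y g)) - z m₀)‖ ≤ ∑ g ∈ Ψ (h, i), ‖z (μ (y g)) - z m₀‖ :=
          norm_sum_le _ _
      _ ≤ ∑ _g ∈ Ψ (h, i), δ / J := Finset.sum_le_sum h3
      _ = (Ψ (h, i)).card * (δ / J) := by rw [Finset.sum_const, nsmul_eq_mul]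
      _ ≤ J * (δ / J) := by
          refine mul_le_mul_of_nonneg_right ?_ (by positivity)
          have := Finset.card_le_univ (Ψ (h, i))
          rw [Fintype.card_fin] at this
          exact_mod_cast this
      _ = δ := by field_simp

end Pool.Agent.V5helper12.SSK
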