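import Pool.Agent.V5helper12.SSK.W2
import Pool.Agent.R479.DA.Lim

/-!
# JOB W: the heights with clumps at all large levels form a set of dimension zero
-/

set_option autoImplicit false

namespace Pool.Agent.V5helper12.SSK

open Pool.Agent.V5helper28.SSK
open Module Filter Topology
open scoped InnerProductSpace ENNReal NNReal

/-- clumps with a space of dimension `w` -/
def Cl {d : ℕ} {I : Type} (c : I → E d) (r θ : ℝ) (q n w : ℕ) : Prop :=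
  ∃ (W : Submodule ℝ (E d)) (F : Finset (Fin n → I)), finrank ℝ W = w ∧
    r⁻¹ ^ (((w : ℝ) + θ) * n) ≤ (F.card : ℝ) ∧
    ∀ ω ∈ F, ∀ ω' ∈ F, ∃ y ∈ W, ‖X c r n ω - X c r n ω' - y‖ ≤ r ^ (q * n)

/-- the frame `f` is adapted to the words -/
def Gd {d : ℕ} {I : Type} (v : I → E d) (r : ℝ) (m n : ℕ) (ω₀ : Fin n → I)
    (ω : Fin m → Fin n → I) (f : Fin m → E d) : Prop :=
  (∀ i, ‖f i‖ ≤ 1) ∧ (∀ i j, j < i → ⟪f i, X v r n (ω j) - X v r n ω₀⟫_ℝ = 0) ∧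
    (∀ i, r ^ n ≤ ⟪f i, X v r n (ω i) - X v r n ω₀⟫_ℝ)

/-- the index set: words of length `n` and the number of a root -/
abbrev Ix (I : Type) (m : ℕ) : Type := Σ n : ℕ, ((Fin n → I) × (Fin m → Fin n → I)) × Fin m

/-- The choice of frames and roots. -/
theorem choice {d : ℕ} {I : Type} (v a : I → E d) (r : ℝ) (hr : 0 < r) (m : ℕ) :
    ∀ (n : ℕ) (Ω : (Fin n → I) × (Fin m → Fin n → I)), ∃ (f : Fin m → E d) (z : Fin m → ℝ),
      (∃ f, Gd v r m n Ω.1 Ω.2 f) → (Gd v r m n Ω.1 Ω.2 f ∧ ∀ t, (r ^ n) ^ m * ∏ i, |t - z i| ≤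
        |(Matrix.of fun i j => ⟪f i, (X a r n (Ω.2 j) - X a r n Ω.1)
          + t • (X v r n (Ω.2 j) - X v r n Ω.1)⟫_ℝ).det|) := by
  intro n Ω
  by_cases h : ∃ f, Gd v r m n Ω.1 Ω.2 f
  · obtain ⟨f, hf⟩ := h
    obtain ⟨z, hz⟩ := det_roots f (fun j => X a r n (Ω.2 j) - X a r n Ω.1)
      (fun j => X v r n (Ω.2 j) - X v r n Ω.1) (r ^ n) (pow_pos hr n) hf.2.1 hf.2.2
    exact ⟨f, z, fun _ => ⟨hf, hz⟩⟩
  · exact ⟨0, 0, fun h' => absurd h' h⟩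

theorem near_root {d : ℕ} {I : Type} [Fintype I] (v a : I → E d) (r κ θ : ℝ) (hr : 0 < r)
    (hr1 : r < 1) (hκ : 0 < κ) (hθ : 0 < θ) (hsep : Sep v r κ) (w Q q : ℕ)
    (hq : (Q + 1) * (w + 1) + 1 ≤ q) (T : ℝ) (hT : 0 ≤ T)
    (f : ∀ n, (Fin n → I) × (Fin (w + 1) → Fin n → I) → Fin (w + 1) → E d)
    (z : ∀ n, (Fin n → I) × (Fin (w + 1) → Fin n → I) → Fin (w + 1) → ℝ)
    (hfz : ∀ n Ω, (∃ f, Gd v r (w + 1) n Ω.1 Ω.2 f) → (Gd v r (w + 1) n Ω.1 Ω.2 (f n Ω) ∧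
      ∀ t, (r ^ n) ^ (w + 1) * ∏ i, |t - z n Ω i| ≤
        |(Matrix.of fun i j => ⟪f n Ω i, (X a r n (Ω.2 j) - X a r n Ω.1)
          + t • (X v r n (Ω.2 j) - X v r n Ω.1)⟫_ℝ).det|)) :
    ∃ n₀ : ℕ, ∀ n : ℕ, n₀ ≤ n → ∀ t : ℝ, |t| ≤ T → Cl (ct v a t) r θ q n w →
      ∃ (Ω : (Fin n → I) × (Fin (w + 1) → Fin n → I)) (i : Fin (w + 1)),
        |t - z n Ω i| ≤ r ^ (Q * n) := by
  obtain ⟨Sv, hSv⟩ : ∃ S : ℝ, S = (∑ i, ‖v i‖) * (1 - r)⁻¹ := ⟨_, rfl⟩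
  obtain ⟨Sa, hSa⟩ : ∃ S : ℝ, S = (∑ i, ‖a i‖) * (1 - r)⁻¹ := ⟨_, rfl⟩
  have h1r : 0 < (1 - r)⁻¹ := inv_pos.2 (by linarith)
  have hSv0 : 0 ≤ Sv := by
    rw [hSv]; exact mul_nonneg (Finset.sum_nonneg fun i _ => norm_nonneg _) h1r.le
  have hSa0 : 0 ≤ Sa := by
    rw [hSa]; exact mul_nonneg (Finset.sum_nonneg fun i _ => norm_nonneg _) h1r.le
  have hvb : ∀ (n : ℕ) (ω : Fin n → I), ‖X v r n ω‖ ≤ Sv := fun n ω => by
    rw [hSv]; exact X_bound v r hr hr1 n ω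
  have hab : ∀ (n : ℕ) (ω : Fin n → I), ‖X a r n ω‖ ≤ Sa := fun n ω => by
    rw [hSa]; exact X_bound a r hr hr1 n ω
  obtain ⟨C, hC1, hC⟩ := count (d := d) (2 * Sv) κ (by positivity) hκ
  obtain ⟨B, hB⟩ : ∃ B : ℝ, B = 2 * (Sa + T * Sv) + (w + 1 : ℕ) := ⟨_, rfl⟩
  have hB0 : 0 ≤ B := by rw [hB]; positivity
  obtain ⟨C0, hC0⟩ : ∃ C0 : ℝ, C0 = ((w + 1).factorial : ℝ) * B ^ (w + 1) := ⟨_, rfl⟩
  have hC00 : 0 ≤ C0 := by rw [hC0]; positivity
  -- the conditions on `n`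
  have hri : 1 < r⁻¹ := (one_lt_inv₀ hr).2 hr1
  have e1 : ∀ᶠ n : ℕ in atTop, C < r⁻¹ ^ (θ * (n : ℝ)) := by
    have h1 : Tendsto (fun n : ℕ => (r⁻¹ ^ θ) ^ n) atTop atTop :=
      tendsto_pow_atTop_atTop_of_one_lt (Real.one_lt_rpow hri hθ)
    filter_upwards [h1.eventually_gt_atTop C] with n hn
    rw [Real.rpow_mul (by positivity), Real.rpow_natCast]
    exact hn
  have e2 : ∀ᶠ n : ℕ in atTop, C0 * r ^ n < 1 := by
    have h1 : Tendsto (fun n : ℕ => C0 * r ^ n) atTop (𝓝 (C0 * 0)) :=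
      (tendsto_pow_atTop_nhds_zero_of_lt_one hr.le hr1).const_mul C0
    rw [mul_zero] at h1
    exact h1.eventually_lt_const one_pos
  obtain ⟨n₀, hn₀⟩ := eventually_atTop.1 (e1.and e2)
  refine ⟨n₀, fun n hn t ht hcl => ?_⟩
  obtain ⟨h1, h2⟩ := hn₀ n hn
  obtain ⟨W, F, hWw, hF, hFW⟩ := hcl
  have hrn : 0 < r ^ n := pow_pos hr n
  have hrn1 : r ^ n ≤ 1 := pow_le_one₀ hr.le hr1.le
  have hri0 : 0 < r⁻¹ := by positivity
  have hFpos : (0 : ℝ) < F.card := (Real.rpow_pos_of_pos hri0 _).trans_le hF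
  obtain ⟨ω₀, hω₀⟩ : F.Nonempty := Finset.card_pos.1 (by exact_mod_cast hFpos)
  -- selection
  have hsel : ∀ V : Submodule ℝ (E d), finrank ℝ V ≤ w → ∃ ω ∈ F, r ^ n <
      ‖(X v r n ω - X v r n ω₀) - V.starProjection (X v r n ω - X v r n ω₀)‖ := by
    intro V hV
    by_contra hcon
    push Not at hcon
    have h3 := hC (Fin n → I) V (r ^ n) hrn hrn1 F (fun ω => X v r n ω - X v r n ω₀)
      (fun ω _ => by
        refine (norm_sub_le _ _).trans ?_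
        have := hvb n ω
        have := hvb n ω₀
        linarith) hcon (fun ω _ ω' _ hne => by
        rw [sub_sub_sub_cancel_right]
        exact hsep n ω ω' hne)
    have h4 : ((r ^ n)⁻¹) ^ (finrank ℝ V) ≤ ((r ^ n)⁻¹) ^ w :=
      pow_le_pow_right₀ ((one_le_inv₀ hrn).2 hrn1) hV
    have h5 : r⁻¹ ^ (((w : ℝ) + θ) * n) = ((r ^ n)⁻¹) ^ w * r⁻¹ ^ (θ * (n : ℝ)) := by
      rw [add_mul, Real.rpow_add hri0, ← inv_pow, ← pow_mul, ← Real.rpow_natCast r⁻¹ (n * w)]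
      congr 2
      push_cast
      ring
    rw [h5] at hF
    have h6 : 0 < ((r ^ n)⁻¹) ^ w := by positivity
    have h7 : (F.card : ℝ) ≤ C * ((r ^ n)⁻¹) ^ w :=
      h3.trans (mul_le_mul_of_nonneg_left h4 (by linarith))
    have h8 : ((r ^ n)⁻¹) ^ w * r⁻¹ ^ (θ * (n : ℝ)) ≤ ((r ^ n)⁻¹) ^ w * C := by linarith
    have h9 := le_of_mul_le_mul_left h8 h6
    linarith
  obtain ⟨ω, f', hω, g1, g2, g3⟩ := select F (fun ω => X v r n ω - X v r n ω₀) (r ^ n) hrn w hsel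
    (w + 1) le_rfl
  have hG : ∃ f, Gd v r (w + 1) n (ω₀, ω).1 (ω₀, ω).2 f := ⟨f', g1, g2, g3⟩
  obtain ⟨⟨k1, k2, k3⟩, hz⟩ := hfz n (ω₀, ω) hG
  refine ⟨(ω₀, ω), ?_⟩
  refine exists_near (z n (ω₀, ω)) t (r ^ (Q * n)) (r ^ (q * n) * C0 / (r ^ n) ^ (w + 1))
    (by positivity) ?_ ?_
  · rw [le_div_iff₀ (by positivity), mul_comm]
    refine (hz t).trans ?_
    rw [hC0]
    refine det_small W (by omega) (f n (ω₀, ω)) (fun j => (X a r n (ω j) - X a r n ω₀)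
          + t • (X v r n (ω j) - X v r n ω₀)) B (r ^ (q * n)) k1 ?_ ?_ (by positivity) ?_
    · intro j
      have b1 : ‖X a r n (ω j) - X a r n ω₀‖ ≤ 2 * Sa := by
        refine (norm_sub_le _ _).trans ?_
        have := hab n (ω j)
        have := hab n ω₀
        linarith
      have b2 : ‖X v r n (ω j) - X v r n ω₀‖ ≤ 2 * Sv := by
        refine (norm_sub_le _ _).trans ?_
        have := hvb n (ω j)
        have := hvb n ω₀
        linarith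
      have b3 : ‖t • (X v r n (ω j) - X v r n ω₀)‖ ≤ T * (2 * Sv) := by
        rw [norm_smul, Real.norm_eq_abs]
        exact mul_le_mul ht b2 (norm_nonneg _) hT
      refine (norm_add_le _ _).trans ?_
      rw [hB]
      have : (0 : ℝ) ≤ ((w + 1 : ℕ) : ℝ) := Nat.cast_nonneg _
      linarith
    · rw [hB]
      have : 0 ≤ Sa + T * Sv := by positivity
      linarith
    · intro j
      obtain ⟨y, hy, hyW⟩ := hFW (ω j) (hω j) ω₀ hω₀
      refine ⟨y, hy, ?_⟩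
      rw [X_ct, X_ct] at hyW
      have e : X a r n (ω j) - X a r n ω₀ + t • (X v r n (ω j) - X v r n ω₀) - y =
          X a r n (ω j) + t • X v r n (ω j) - (X a r n ω₀ + t • X v r n ω₀) - y := by
        rw [smul_sub]; abel
      show ‖X a r n (ω j) - X a r n ω₀ + t • (X v r n (ω j) - X v r n ω₀) - y‖ ≤ _
      rw [e]
      exact hyW
  · rw [div_lt_iff₀ (by positivity)]
    have e3 : (r ^ (Q * n)) ^ (w + 1) * (r ^ n) ^ (w + 1) = r ^ ((Q + 1) * (w + 1) * n) := by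
      rw [← pow_mul, ← pow_mul, ← pow_add]
      congr 1
      ring
    rw [e3]
    have e4 : r ^ (q * n) ≤ r ^ ((Q + 1) * (w + 1) * n) * r ^ n := by
      rw [← pow_add]
      refine pow_le_pow_of_le_one hr.le hr1.le ?_
      calc (Q + 1) * (w + 1) * n + n = ((Q + 1) * (w + 1) + 1) * n := by ring
        _ ≤ q * n := Nat.mul_le_mul_right n hq
    have e5 : 0 < r ^ ((Q + 1) * (w + 1) * n) := by positivity
    calc r ^ (q * n) * C0 ≤ (r ^ ((Q + 1) * (w + 1) * n) * r ^ n) * C0 :=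
          mul_le_mul_of_nonneg_right e4 hC00
      _ = r ^ ((Q + 1) * (w + 1) * n) * (C0 * r ^ n) := by ring
      _ < r ^ ((Q + 1) * (w + 1) * n) * 1 := mul_lt_mul_of_pos_left h2 e5
      _ = _ := mul_one _

theorem dim_w {d : ℕ} {I : Type} [Fintype I] [Nonempty I] (v a : I → E d) (r κ θ : ℝ) (hr : 0 < r)
    (hr1 : r < 1) (hκ : 0 < κ) (hθ : 0 < θ) (hsep : Sep v r κ) (w Q q : ℕ)
    (hq : (Q + 1) * (w + 1) + 1 ≤ q) (T : ℝ) (hT : 0 ≤ T) (τ : ℝ) (hτ : 0 < τ)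
    (hQ : (Fintype.card I : ℝ) ^ (w + 2) * (r ^ τ) ^ Q < 1) :
    dimH {t : ℝ | |t| ≤ T ∧ ∃ᶠ n in atTop, Cl (ct v a t) r θ q n w} ≤ ENNReal.ofReal τ := by
  classical
  have hch := choice v a r hr (w + 1)
  choose f z hfz using hch
  obtain ⟨n₀, hn₀⟩ := near_root v a r κ θ hr hr1 hκ hθ hsep w Q q hq T hT f z hfz
  set U : Ix I (w + 1) → Set ℝ := fun x => Metric.closedBall (z x.1 x.2.1 x.2.2) (r ^ (Q * x.1))
  set D : Ix I (w + 1) → ℝ := fun x => 2 * r ^ (Q * x.1) with hD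
  have hDpos : ∀ x, 0 < D x := fun x => by
    rw [hD]; positivity
  have hUD : ∀ x, Metric.ediam (U x) ≤ ENNReal.ofReal (D x) := by
    intro x
    refine Metric.ediam_le fun s hs t ht => ?_
    rw [edist_dist]
    apply ENNReal.ofReal_le_ofReal
    have h1 := Metric.mem_closedBall.1 hs
    have h2 := Metric.mem_closedBall'.1 ht
    refine (dist_triangle s (z x.1 x.2.1 x.2.2) t).trans ?_
    show _ ≤ 2 * r ^ (Q * x.1)
    linarith
  have hsum : Summable fun x => D x ^ τ := by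
    rw [summable_sigma_of_nonneg (fun x => Real.rpow_nonneg (hDpos x).le _)]
    refine ⟨fun n => (hasSum_fintype _).summable, ?_⟩
    have e : ∀ n : ℕ, (∑' y : ((Fin n → I) × (Fin (w + 1) → Fin n → I)) × Fin (w + 1),
        D ⟨n, y⟩ ^ τ) = ((w + 1 : ℕ) * 2 ^ τ) *
          ((Fintype.card I : ℝ) ^ (w + 2) * (r ^ τ) ^ Q) ^ n := by
      intro n
      rw [tsum_fintype]
      have e1 : ∀ y : ((Fin n → I) × (Fin (w + 1) → Fin n → I)) × Fin (w + 1),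
          D ⟨n, y⟩ ^ τ = 2 ^ τ * (((r ^ τ) ^ Q) ^ n) := by
        intro y
        show (2 * r ^ (Q * n)) ^ τ = _
        rw [Real.mul_rpow (by norm_num) (by positivity), ← Real.rpow_natCast r,
          ← Real.rpow_mul hr.le, ← Real.rpow_natCast, ← Real.rpow_natCast, ← Real.rpow_mul hr.le,
          ← Real.rpow_mul hr.le]
        congr 2
        push_cast
        ring
      rw [Finset.sum_congr rfl fun y _ => e1 y, Finset.sum_const, nsmul_eq_mul, Finset.card_univ,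
        Fintype.card_prod, Fintype.card_prod, Fintype.card_fun, Fintype.card_fun,
        Fintype.card_fun, Fintype.card_fin, Fintype.card_fin, mul_pow]
      push_cast
      have e2 : (Fintype.card I : ℝ) ^ n * ((Fintype.card I : ℝ) ^ n) ^ (w + 1) =
          ((Fintype.card I : ℝ) ^ (w + 2)) ^ n := by
        rw [← pow_mul, ← pow_add, ← pow_mul]
        congr 1
        ring
      rw [e2]
      ring
    have e' : (fun n : ℕ => ∑' y : ((Fin n → I) × (Fin (w + 1) → Fin n → I)) × Fin (w + 1),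
        D ⟨n, y⟩ ^ τ) = fun n : ℕ => ((w + 1 : ℕ) * 2 ^ τ) *
          ((Fintype.card I : ℝ) ^ (w + 2) * (r ^ τ) ^ Q) ^ n := funext e
    rw [e']
    refine Summable.mul_left _ (summable_geometric_of_lt_one ?_ hQ)
    have := Real.rpow_pos_of_pos hr τ
    positivity
  have hdim := Pool.Agent.R479.DA.dimH_limsup U D hDpos hUD hτ hsum
  refine (dimH_mono ?_).trans hdim
  rintro t ⟨htT, hfr⟩
  show {x | t ∈ U x}.Infinite
  refine Set.Infinite.of_image Sigma.fst ?_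
  refine Set.infinite_of_forall_exists_gt fun N => ?_
  obtain ⟨n, hn, hcl⟩ := (Filter.frequently_atTop.1 hfr) (max n₀ (N + 1))
  obtain ⟨Ω, i, hi⟩ := hn₀ n ((le_max_left _ _).trans hn) t htT hcl
  refine ⟨n, ⟨⟨n, (Ω, i)⟩, ?_, rfl⟩, ?_⟩
  · show t ∈ Metric.closedBall (z n Ω i) (r ^ (Q * n))
    rw [Metric.mem_closedBall, Real.dist_eq]
    exact hi
  · have := (le_max_right n₀ (N + 1)).trans hn
    omega

/-- **JOB W** -/
theorem jobW : JobW := by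
  intro d I _ _ v a r κ θ hr hr1 hκ hθ hsep
  refine le_antisymm ?_ bot_le
  refine ENNReal.le_of_forall_pos_le_add fun τ hτ _ => ?_
  rw [zero_add]
  have hτ' : (0 : ℝ) < (τ : ℝ) := by exact_mod_cast hτ
  have hN : (1 : ℝ) ≤ (Fintype.card I : ℝ) := by exact_mod_cast Fintype.card_pos
  have hrτ : 0 < r ^ (τ : ℝ) := Real.rpow_pos_of_pos hr _
  have hrτ1 : r ^ (τ : ℝ) < 1 := Real.rpow_lt_one hr.le hr1 hτ'
  obtain ⟨Q, hQ⟩ := exists_pow_lt_of_lt_one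
    (show (0 : ℝ) < ((Fintype.card I : ℝ) ^ (d + 2))⁻¹ by positivity) hrτ1
  have hQw : ∀ w ≤ d, (Fintype.card I : ℝ) ^ (w + 2) * (r ^ (τ : ℝ)) ^ Q < 1 := by
    intro w hw
    have h1 : (Fintype.card I : ℝ) ^ (w + 2) ≤ (Fintype.card I : ℝ) ^ (d + 2) :=
      pow_le_pow_right₀ hN (by omega)
    have h2 : (0 : ℝ) < (Fintype.card I : ℝ) ^ (d + 2) := by positivity
    calc (Fintype.card I : ℝ) ^ (w + 2) * (r ^ (τ : ℝ)) ^ Q
        ≤ (Fintype.card I : ℝ) ^ (d + 2) * (r ^ (τ : ℝ)) ^ Q :=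
          mul_le_mul_of_nonneg_right h1 (by positivity)
      _ < (Fintype.card I : ℝ) ^ (d + 2) * ((Fintype.card I : ℝ) ^ (d + 2))⁻¹ :=
          mul_lt_mul_of_pos_left hQ h2
      _ = 1 := mul_inv_cancel₀ h2.ne'
  set q := (Q + 1) * (d + 1) + 1 with hq
  have hsub : {t : ℝ | ∀ q : ℕ, ∃ n₁ : ℕ, ∀ n : ℕ, n₁ ≤ n → Clump (ct v a t) r θ q n} ⊆
      ⋃ T : ℕ, ⋃ w : Fin (d + 1),
        {t : ℝ | |t| ≤ T ∧ ∃ᶠ n in atTop, Cl (ct v a t) r θ q n w} := by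
    intro t ht
    obtain ⟨T, hT⟩ := exists_nat_ge |t|
    obtain ⟨n₁, hn₁⟩ := ht q
    rw [Set.mem_iUnion]
    refine ⟨T, ?_⟩
    rw [Set.mem_iUnion]
    by_contra hcon
    push Not at hcon
    have h1 : ∀ w : Fin (d + 1), ∀ᶠ n in atTop, ¬ Cl (ct v a t) r θ q n w := by
      intro w
      have h2 := hcon w
      rw [← Filter.not_frequently]
      intro h3
      exact h2 ⟨hT, h3⟩
    have h2 : ∀ᶠ n in atTop, ∀ w : Fin (d + 1), ¬ Cl (ct v a t) r θ q n w :=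
      Filter.eventually_all.2 h1
    obtain ⟨n, hn, hn'⟩ := (h2.and (eventually_ge_atTop n₁)).exists
    obtain ⟨W, F, hF1, hF2⟩ := hn₁ n hn'
    have hW : finrank ℝ W < d + 1 := by
      have := Submodule.finrank_le W
      rw [finrank_euclideanSpace, Fintype.card_fin] at this
      omega
    exact hn ⟨finrank ℝ W, hW⟩ ⟨W, F, rfl, hF1, hF2⟩
  refine (dimH_mono hsub).trans ?_
  rw [dimH_iUnion]
  refine iSup_le fun T => ?_
  rw [dimH_iUnion]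
  refine iSup_le fun w => ?_
  have hw : (w : ℕ) ≤ d := by omega
  have := dim_w v a r κ θ hr hr1 hκ hθ hsep w Q q (by
    rw [hq]
    have := Nat.mul_le_mul_left (Q + 1) (show (w : ℕ) + 1 ≤ d + 1 by omega)
    omega) T (Nat.cast_nonneg T) τ hτ' (hQw w hw)
  rwa [ENNReal.ofReal_coe_nnreal] at this

end Pool.Agent.V5helper12.SSK
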