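import Pool.Agent.V5helper28.SSK.Cell

/-!
# From `Thin` to the level entropies
-/

set_option autoImplicit false

namespace Pool.Agent.V5helper12.SSK

open Pool.Agent.V5helper28.SSK

theorem box_le {d : ℕ} {ρ : ℝ} (hρ : 0 ≤ ρ) (z : Fin d → ℤ) :
    ((Fintype.piFinset fun k => Finset.Icc (z k - ⌊ρ + 1⌋) (z k + ⌊ρ + 1⌋)).card : ℝ) ≤
      (2 * ρ + 3) ^ d := by
  rw [Fintype.card_piFinset]
  push_cast
  calc ∏ k : Fin d, ((Finset.Icc (z k - ⌊ρ + 1⌋) (z k + ⌊ρ + 1⌋)).card : ℝ)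
      ≤ ∏ _k : Fin d, (2 * ρ + 3) :=
        Finset.prod_le_prod (fun _ _ => Nat.cast_nonneg _) fun k _ => card_int_le hρ _
    _ = (2 * ρ + 3) ^ d := by simp

/-- a maximal separated set of words -/
theorem exists_net {d : ℕ} {W : Type} [Fintype W] (x : W → E d) {δ : ℝ} (hδ : 0 < δ) :
    ∃ F : Finset W, (∀ ω ∈ F, ∀ ω' ∈ F, ω ≠ ω' → δ ≤ ‖x ω - x ω'‖) ∧
      ∀ ω, ∃ ω' ∈ F, ‖x ω - x ω'‖ ≤ δ := by
  classical
  let P : Finset W → Prop := fun F => ∀ ω ∈ F, ∀ ω' ∈ F, ω ≠ ω' → δ ≤ ‖x ω - x ω'‖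
  have h0 : ((Finset.univ : Finset (Finset W)).filter P).Nonempty :=
    ⟨∅, by simp [P]⟩
  obtain ⟨F, hF, hmax⟩ := Finset.exists_max_image _ Finset.card h0
  have hFP : P F := (Finset.mem_filter.1 hF).2
  refine ⟨F, hFP, fun ω => ?_⟩
  by_contra hcon
  push Not at hcon
  have hω : ω ∉ F := by
    intro h1
    have h2 := hcon ω h1
    rw [sub_self, norm_zero] at h2
    linarith
  have hP : P (insert ω F) := by
    intro a ha b hb hab
    rw [Finset.mem_insert] at ha hb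
    rcases ha with rfl | ha <;> rcases hb with rfl | hb
    · exact absurd rfl hab
    · exact (hcon b hb).le
    · rw [norm_sub_rev]
      exact (hcon a ha).le
    · exact hFP a ha b hb hab
  have h1 := hmax (insert ω F) (Finset.mem_filter.2 ⟨Finset.mem_univ _, hP⟩)
  rw [Finset.card_insert_of_notMem hω] at h1
  omega

theorem thin_he {d : ℕ} {I : Type} [Fintype I] [Nonempty I] (c : I → E d) {r ρ η : ℝ}
    (hr : 0 < r) (_hr1 : r < 1) (hρ : 0 < ρ) (h : Thin c r ρ η) :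
    ∃ (C : ℝ) (n₀ : ℕ), ∀ n : ℕ, n₀ ≤ n →
      he c r n ≤ n * (Real.log (Fintype.card I) + η * Real.log r) + C := by
  classical
  obtain ⟨n₀, hn₀⟩ := h
  refine ⟨KC d ρ, n₀, fun n hn => ?_⟩
  have hrn : 0 < r ^ n := pow_pos hr n
  obtain ⟨F, hF1, hF2⟩ := exists_net (fun ω : Fin n → I => X c r n ω)
    (δ := ρ * r ^ n) (by positivity)
  have hFc := hn₀ n hn F hF1
  have hI : (0 : ℝ) < Fintype.card I := by exact_mod_cast Fintype.card_pos
  have hsub : (Finset.univ : Finset (Fin n → I)).image (fun ω => cl r n (X c r n ω)) ⊆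
      F.biUnion fun ω => Fintype.piFinset fun k =>
        Finset.Icc (cl r n (X c r n ω) k - ⌊ρ + 1⌋) (cl r n (X c r n ω) k + ⌊ρ + 1⌋) := by
    intro z hz
    obtain ⟨ω, _, rfl⟩ := Finset.mem_image.1 hz
    obtain ⟨ω', hω', h1⟩ := hF2 ω
    rw [Finset.mem_biUnion]
    refine ⟨ω', hω', ?_⟩
    rw [Fintype.mem_piFinset]
    intro k
    have h2 := (abs_apply_le_norm (X c r n ω - X c r n ω') k).trans h1
    rw [PiLp.sub_apply] at h2
    have h4 : |X c r n ω k / r ^ n - X c r n ω' k / r ^ n| ≤ ρ := by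
      rw [← sub_div, abs_div, abs_of_pos hrn, div_le_iff₀ hrn]
      exact h2
    have h5 := abs_floor_sub_le h4
    rw [abs_le] at h5
    rw [Finset.mem_Icc]
    unfold cl
    constructor <;> linarith [h5.1, h5.2]
  have hcard : (((Finset.univ : Finset (Fin n → I)).image
      (fun ω => cl r n (X c r n ω))).card : ℝ) ≤
      ((Fintype.card I : ℝ) * r ^ η) ^ n * (2 * ρ + 3) ^ d := by
    have h1 : (((Finset.univ : Finset (Fin n → I)).image
        (fun ω => cl r n (X c r n ω))).card : ℝ) ≤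
        ∑ ω ∈ F, ((Fintype.piFinset fun k =>
          Finset.Icc (cl r n (X c r n ω) k - ⌊ρ + 1⌋)
            (cl r n (X c r n ω) k + ⌊ρ + 1⌋)).card : ℝ) := by
      exact_mod_cast (Finset.card_le_card hsub).trans Finset.card_biUnion_le
    refine h1.trans ((Finset.sum_le_sum fun ω _ => box_le hρ.le _).trans ?_)
    rw [Finset.sum_const, nsmul_eq_mul]
    exact mul_le_mul_of_nonneg_right hFc (by positivity)
  have h2 := Ent_le_log (s := (Finset.univ : Finset (Fin n → I)))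
    (A := fun ω => cl r n (X c r n ω)) Finset.univ_nonempty hcard
  have hrη : (0 : ℝ) < r ^ η := Real.rpow_pos_of_pos hr η
  rw [Real.log_mul (by positivity) (by positivity), Real.log_pow, Real.log_pow,
    Real.log_mul hI.ne' hrη.ne', Real.log_rpow hr] at h2
  unfold he KC
  exact h2

end Pool.Agent.V5helper12.SSK
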