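import Pool.Agent.V5helper12.SSK.W1

/-!
# JOB W, part 2: the roots
-/

set_option autoImplicit false

namespace Pool.Agent.V5helper12.SSK

open Pool.Agent.V5helper28.SSK
open Module
open scoped InnerProductSpace

theorem cfac : ∀ (m : ℕ) (p : Polynomial ℂ), p.natDegree = m →
    ∃ z : Fin m → ℂ, ∀ t, p.eval t = p.leadingCoeff * ∏ i, (t - z i) := by
  intro m
  induction m with
  | zero =>
    intro p hp
    refine ⟨Fin.elim0, fun t => ?_⟩
    have h := Polynomial.eq_C_of_natDegree_eq_zero hp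
    have h2 : p.leadingCoeff = p.coeff 0 := by rw [Polynomial.leadingCoeff, hp]
    rw [Finset.univ_eq_empty, Finset.prod_empty, mul_one, h2]
    conv_lhs => rw [h, Polynomial.eval_C]
  | succ m ih =>
    intro p hp
    have hdeg : p.degree ≠ 0 := by
      intro h0
      have := Polynomial.natDegree_eq_zero_iff_degree_le_zero.2 (le_of_eq h0)
      omega
    obtain ⟨z0, hz0⟩ := IsAlgClosed.exists_root p hdeg
    obtain ⟨q, hq⟩ := Polynomial.dvd_iff_isRoot.2 hz0
    have hp0 : p ≠ 0 := by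
      intro h0
      rw [h0, Polynomial.natDegree_zero] at hp
      omega
    have hq0 : q ≠ 0 := by
      intro h0
      rw [h0, mul_zero] at hq
      exact hp0 hq
    have hqd : q.natDegree = m := by
      have h1 := Polynomial.natDegree_mul (Polynomial.X_sub_C_ne_zero z0) hq0
      rw [← hq, hp, Polynomial.natDegree_X_sub_C] at h1
      omega
    have hql : p.leadingCoeff = q.leadingCoeff := by
      rw [hq, Polynomial.leadingCoeff_mul, Polynomial.leadingCoeff_X_sub_C, one_mul]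
    obtain ⟨z, hz⟩ := ih q hqd
    refine ⟨Fin.cons z0 z, fun t => ?_⟩
    rw [Fin.prod_univ_succ, hql]
    simp only [Fin.cons_zero, Fin.cons_succ]
    have h2 : p.eval t = (t - z0) * q.eval t := by
      conv_lhs => rw [hq]
      simp
    rw [h2, hz t]
    ring

/-- A real polynomial of degree at most `m` is at least its coefficient of degree `m` times the
product of the distances to `m` real numbers. -/
theorem rfac {m : ℕ} (p : Polynomial ℝ) (hdeg : p.natDegree ≤ m) (hm : p.coeff m ≠ 0) :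
    ∃ z : Fin m → ℝ, ∀ t, |p.coeff m| * ∏ i, |t - z i| ≤ |p.eval t| := by
  have hd : p.natDegree = m := le_antisymm hdeg (Polynomial.le_natDegree_of_ne_zero hm)
  have hl : p.leadingCoeff = p.coeff m := by rw [Polynomial.leadingCoeff, hd]
  obtain ⟨z, hz⟩ := cfac m (p.map (algebraMap ℝ ℂ)) (by
    rw [Polynomial.natDegree_map_eq_of_injective (algebraMap ℝ ℂ).injective, hd])
  refine ⟨fun i => (z i).re, fun t => ?_⟩
  have h1 := hz (t : ℂ)
  have h2 : (p.map (algebraMap ℝ ℂ)).eval (t : ℂ) = ((p.eval t : ℝ) : ℂ) := by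
    rw [Polynomial.eval_map]
    exact (Polynomial.eval₂_at_apply (algebraMap ℝ ℂ) t)
  rw [h2, Polynomial.leadingCoeff_map, hl] at h1
  have h3 := congrArg norm h1
  rw [norm_mul, norm_prod, Complex.norm_real, Real.norm_eq_abs] at h3
  have h4 : ‖(algebraMap ℝ ℂ) (p.coeff m)‖ = |p.coeff m| := by
    rw [Complex.coe_algebraMap, Complex.norm_real, Real.norm_eq_abs]
  rw [h4] at h3
  rw [h3]
  refine mul_le_mul_of_nonneg_left ?_ (abs_nonneg _)
  refine Finset.prod_le_prod (fun i _ => abs_nonneg _) fun i _ => ?_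
  have h5 := Complex.abs_re_le_norm ((t : ℂ) - z i)
  simpa using h5

/-- The determinants as functions of the height. -/
theorem det_roots {d m : ℕ} (f α u : Fin m → E d) (δ : ℝ) (hδ : 0 < δ)
    (h1 : ∀ i j, j < i → ⟪f i, u j⟫_ℝ = 0) (h2 : ∀ i, δ ≤ ⟪f i, u i⟫_ℝ) :
    ∃ z : Fin m → ℝ, ∀ t, δ ^ m * ∏ i, |t - z i| ≤
      |(Matrix.of fun i j => ⟪f i, α j + t • u j⟫_ℝ).det| := by
  set U : Matrix (Fin m) (Fin m) ℝ := Matrix.of fun i j => ⟪f i, u j⟫_ℝ with hU
  set A : Matrix (Fin m) (Fin m) ℝ := Matrix.of fun i j => ⟪f i, α j⟫_ℝ with hA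
  have hdetU : U.det = ∏ i, ⟪f i, u i⟫_ℝ := by
    refine Matrix.det_of_isUpperTriangular ?_
    intro i j hij
    exact h1 i j hij
  have hdU : δ ^ m ≤ U.det := by
    rw [hdetU]
    calc δ ^ m = ∏ _i : Fin m, δ := by simp
      _ ≤ _ := Finset.prod_le_prod (fun i _ => hδ.le) fun i _ => h2 i
  have hpos : 0 < U.det := (pow_pos hδ m).trans_le hdU
  have hc := Polynomial.coeff_det_X_add_C_card U A
  have hn := Polynomial.natDegree_det_X_add_C_le U A
  rw [Fintype.card_fin] at hc hn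
  obtain ⟨z, hz⟩ := rfac _ hn (by rw [hc]; exact hpos.ne')
  refine ⟨z, fun t => ?_⟩
  have h3 := hz t
  rw [hc, abs_of_pos hpos] at h3
  have h4 : Polynomial.eval t (((Polynomial.X : Polynomial ℝ) • U.map Polynomial.C
      + A.map Polynomial.C).det) = (Matrix.of fun i j => ⟪f i, α j + t • u j⟫_ℝ).det := by
    have h5 : (Polynomial.evalRingHom t).mapMatrix ((Polynomial.X : Polynomial ℝ) • U.map Polynomial.C
        + A.map Polynomial.C) = Matrix.of fun i j => ⟪f i, α j + t • u j⟫_ℝ := by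
      ext i j
      simp [hU, hA, inner_add_right, inner_smul_right]
      ring
    rw [← h5, ← RingHom.map_det]
    rfl
  rw [h4] at h3
  refine le_trans ?_ h3
  exact mul_le_mul_of_nonneg_right hdU (Finset.prod_nonneg fun i _ => abs_nonneg _)

/-- One of the factors is small. -/
theorem exists_near {m : ℕ} (z : Fin m → ℝ) (t ρ η : ℝ) (hρ : 0 < ρ)
    (h : ∏ i, |t - z i| ≤ η) (hη : η < ρ ^ m) : ∃ i, |t - z i| ≤ ρ := by
  by_contra hcon
  push Not at hcon
  have h1 : ρ ^ m ≤ ∏ i, |t - z i| := by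
    calc ρ ^ m = ∏ _i : Fin m, ρ := by simp
      _ ≤ _ := Finset.prod_le_prod (fun i _ => hρ.le) fun i _ => (hcon i).le
  linarith

theorem X_ct {d : ℕ} {I : Type} (v a : I → E d) (r t : ℝ) (n : ℕ) (ω : Fin n → I) :
    X (ct v a t) r n ω = X a r n ω + t • X v r n ω := by
  unfold X ct
  rw [Finset.smul_sum, ← Finset.sum_add_distrib]
  refine Finset.sum_congr rfl fun j _ => ?_
  rw [smul_add, smul_comm]

theorem X_bound {d : ℕ} {I : Type} [Fintype I] (c : I → E d) (r : ℝ) (hr : 0 < r) (hr1 : r < 1)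
    (n : ℕ) (ω : Fin n → I) : ‖X c r n ω‖ ≤ (∑ i, ‖c i‖) * (1 - r)⁻¹ := by
  have hS : ∀ i, ‖c i‖ ≤ ∑ i, ‖c i‖ := fun i =>
    Finset.single_le_sum (fun i _ => norm_nonneg (c i)) (Finset.mem_univ i)
  calc ‖X c r n ω‖ ≤ ∑ j : Fin n, ‖r ^ (j : ℕ) • c (ω j)‖ := norm_sum_le _ _
    _ ≤ ∑ j : Fin n, r ^ (j : ℕ) * ∑ i, ‖c i‖ := by
        refine Finset.sum_le_sum fun j _ => ?_
        rw [norm_smul, norm_pow, Real.norm_eq_abs, abs_of_pos hr]
        exact mul_le_mul_of_nonneg_left (hS _) (by positivity)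
    _ = (∑ j ∈ Finset.range n, r ^ j) * ∑ i, ‖c i‖ := by
        rw [← Finset.sum_mul, Fin.sum_univ_eq_sum_range (fun j => r ^ j) n]
    _ ≤ (1 - r)⁻¹ * ∑ i, ‖c i‖ := by
        refine mul_le_mul_of_nonneg_right ?_ (Finset.sum_nonneg fun i _ => norm_nonneg _)
        rw [← tsum_geometric_of_lt_one hr.le hr1]
        exact (summable_geometric_of_lt_one hr.le hr1).sum_le_tsum _ fun i _ => by positivity
    _ = _ := mul_comm _ _

end Pool.Agent.V5helper12.SSK
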